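import Mathlib

/-!
# MP_5182ad_lc, oracle barrier: statements of the FINITE CORE (sections 1-4 of the page)

Everything is classical (`open Classical`), no `DecidableEq` arguments anywhere.
Row `XXX` = file `Pool/Agent/H<k>/ORB/XXX.lean`, `theorem Pool.ORB.xxx : XXXStmt` (or, if the row
needs other rows, `theorem Pool.ORB.xxx (h1 : AAAStmt) (h2 : BBBStmt) : XXXStmt`).
-/

open Classical Finset

namespace Pool.ORB

/-! ## Constants -/

/-- bound for the number of facts of a record -/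
def Hp (p : ℕ) : ℕ := p + 2

/-- number of main steps -/
def Tp (p : ℕ) : ℕ := 4 * p + 4 * (p + 2) * (p + 3)

/-- bound for the number of cleaned addresses -/
def Np (p : ℕ) : ℕ := Tp p * (2 + p + (p + 1) * (p + 2)) + 1

/-- bound for the size of the partial worlds -/
def Sp (p : ℕ) : ℕ := Tp p * Hp p + Np p

/-! ## Facts, partial worlds, queries -/

/-- A fact: address, needle, bit. -/
abbrev Fct (E Nd : Type) : Type := E × Nd × Bool

/-- Finite sets of facts. -/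
abbrev FS (E Nd : Type) : Type := Finset (Fct E Nd)

/-- A leaf: a string and its record. -/
abbrev Lf (E Nd Sg : Type) : Type := Sg × FS E Nd

/-- The set of facts is a partial function on addresses. -/
def Fn {E Nd : Type} (κ : FS E Nd) : Prop := ∀ f ∈ κ, ∀ g ∈ κ, f.1 = g.1 → f = g

/-- The addresses of a set of facts. -/
noncomputable def dm {E Nd : Type} (κ : FS E Nd) : Finset E := κ.image Prod.fst

/-- The answers given by a set of facts: `some b` if `(e, w, b)` is there, `none` otherwise. -/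
noncomputable def ans {E Nd : Type} (κ : FS E Nd) (e : E) (w : Nd) : Option Bool :=
  if (e, w, true) ∈ κ then some true else if (e, w, false) ∈ κ then some false else none

/-- The data of the core: `p` bounds the queries of a run and the number of strings, `W` is the
set of secret values, `V e x` the valid needles of the address `e` if its secret is `x`; `R y z`
is the referee, `Q y z g` a set of queries that determines its output with the answers `g`. -/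
structure Dat (E Nd Sg W : Type) [Fintype E] [Fintype W] [Fintype Sg] where
  p : ℕ
  q : ℕ
  hp : 1 ≤ p
  hS : Fintype.card Sg ≤ 2 ^ p
  hq : 16 * Hp p * (Tp p) ^ 2 ≤ q
  hW : Fintype.card W = q ^ 4
  V : E → W → Finset Nd
  disj : ∀ e x y, x ≠ y → Disjoint (V e x) (V e y)
  big : ∀ e x, q ^ 2 ≤ (V e x).card
  R : Sg → Sg → (E → Nd → Option Bool) → Bool
  Q : Sg → Sg → (E → Nd → Option Bool) → Finset (E × Nd)
  card_le : ∀ y z g, (Q y z g).card ≤ p
  loc : ∀ y z g g', (∀ x ∈ Q y z g, g' x.1 x.2 = g x.1 x.2) → R y z g' = R y z g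

/-- All facts are valid for the secret function `a`. -/
def Val {E Nd W : Type} (V : E → W → Finset Nd) (a : E → W) (κ : FS E Nd) : Prop :=
  ∀ f ∈ κ, f.2.1 ∈ V f.1 (a f.1)

/-- **The core theorem.** -/
def CoreStmt : Prop :=
  ∀ {E Nd Sg W : Type} [Fintype E] [Fintype W] [Fintype Sg] (D : Dat E Nd Sg W)
    (Yes No : (E → W) → Set (FS E Nd)),
    (∀ a, ∀ U ∈ Yes a, Fn U ∧ Val D.V a U) → (∀ a, ∀ U ∈ No a, Fn U ∧ Val D.V a U) →
    (∀ a ρ, Fn ρ → Val D.V a ρ → ρ.card ≤ Sp D.p →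
      (∃ U ∈ Yes a, ρ ⊆ U) ∧ (∃ U ∈ No a, ρ ⊆ U)) →
    ∃ a, (∃ U ∈ Yes a, ∀ y, ∃ z, D.R y z (ans U) = false) ∨
      (∃ U ∈ No a, ∀ z, ∃ y, D.R y z (ans U) = true)

/-! ## Challenges and states -/

section
variable {E Nd Sg W : Type} [Fintype E] [Fintype W] [Fintype Sg]

/-- On side `σ` (`true`: side of the yes strings) the string `t` of the other side challenges the
string `s` with the answers `g`. -/
def Dat.chal (D : Dat E Nd Sg W) (σ : Bool) (s t : Sg) (g : E → Nd → Option Bool) : Bool :=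
  if σ then !(D.R s t g) else D.R t s g

/-- The queries that determine the challenge. -/
def Dat.qs (D : Dat E Nd Sg W) (σ : Bool) (s t : Sg) (g : E → Nd → Option Bool) :
    Finset (E × Nd) :=
  if σ then D.Q s t g else D.Q t s g

/-- The children of the leaf `l` after the challenge by `t`, known facts `κ`. -/
noncomputable def Dat.kids (D : Dat E Nd Sg W) (σ : Bool) (κ : FS E Nd) (t : Sg)
    (l : Lf E Nd Sg) : Finset (Lf E Nd Sg) :=
  (((D.qs σ l.1 t (ans (κ ∪ l.2))).filter (fun x => x.1 ∉ dm (κ ∪ l.2))) ×ˢ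
    (univ : Finset Bool)).image (fun xb => (l.1, insert (xb.1.1, xb.1.2, xb.2) l.2))

/-- A challenge step on one side: leaves that contradict `κ` die, challenged leaves are replaced
by their children, the others stay. -/
noncomputable def Dat.stp (D : Dat E Nd Sg W) (σ : Bool) (κ : FS E Nd) (t : Sg)
    (F : Finset (Lf E Nd Sg)) : Finset (Lf E Nd Sg) :=
  F.biUnion (fun l =>
    if Fn (κ ∪ l.2) then
      (if D.chal σ l.1 t (ans (κ ∪ l.2)) = true then D.kids σ κ t l else {l})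
    else ∅)

/-- A state: partial world and the formal leaves of both sides. -/
structure St (E Nd Sg : Type) where
  ρ : FS E Nd
  F : Bool → Finset (Lf E Nd Sg)

/-- The start: nothing known, every string with the empty record. -/
noncomputable def s0 (E Nd Sg : Type) [Fintype Sg] : St E Nd Sg :=
  ⟨∅, fun _ => univ.image (fun s : Sg => (s, (∅ : FS E Nd)))⟩

/-! ## Weights -/

/-- Weight of a record: each fact in `ρ` counts `q`, each fact outside `1/q`; records that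
contradict `ρ` have weight `0`. -/
noncomputable def Dat.wt (D : Dat E Nd Sg W) (ρ u : FS E Nd) : ℝ :=
  if Fn (ρ ∪ u) then (D.q : ℝ) ^ (u ∩ ρ).card * (1 / (D.q : ℝ)) ^ (u \ ρ).card else 0

/-- Total weight. -/
noncomputable def Dat.Psi (D : Dat E Nd Sg W) (s : St E Nd Sg) : ℝ :=
  ∑ σ : Bool, ∑ l ∈ s.F σ, D.wt s.ρ l.2

/-- Weight of the leaves whose record contains `g`. -/
noncomputable def Dat.mm (D : Dat E Nd Sg W) (s : St E Nd Sg) (g : FS E Nd) : ℝ :=
  ∑ σ : Bool, ∑ l ∈ (s.F σ).filter (fun l => g ⊆ l.2), D.wt s.ρ l.2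

/-- The bound for the total weight. -/
noncomputable def Dat.M (D : Dat E Nd Sg W) : ℝ := 2 ^ (D.p + 2)

/-- The threshold. -/
noncomputable def Dat.ε (D : Dat E Nd Sg W) : ℝ := 1 / (4 * (Hp D.p : ℝ) * (Tp D.p : ℝ))

/-- Heavy sets of facts. -/
def Dat.Heavy (D : Dat E Nd Sg W) (s : St E Nd Sg) (g : FS E Nd) : Prop :=
  g.Nonempty ∧ Fn g ∧ Disjoint (dm g) (dm s.ρ) ∧
    D.ε ^ g.card * D.M ≤ ((D.q : ℝ) ^ 2) ^ g.card * D.mm s g

/-! ## Moves -/

/-- The leaf `l` of side `!σ` may challenge side `σ`. -/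
def Dat.MainOK (D : Dat E Nd Sg W) (s : St E Nd Sg) (σ : Bool) (l : Lf E Nd Sg) : Prop :=
  l ∈ s.F (!σ) ∧ Fn (s.ρ ∪ l.2) ∧ ∀ g ⊆ l.2 \ s.ρ, ¬ D.Heavy s g

/-- The state after the challenge of side `σ` by the leaf `l`. -/
noncomputable def Dat.mainSt (D : Dat E Nd Sg W) (s : St E Nd Sg) (σ : Bool)
    (l : Lf E Nd Sg) : St E Nd Sg :=
  ⟨s.ρ ∪ l.2, fun τ => if τ = σ then D.stp σ (s.ρ ∪ l.2) l.1 (s.F σ) else s.F τ⟩

/-- `G` is a good replacement of the heavy set `g`. -/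
def Dat.CleanOK (D : Dat E Nd Sg W) (s : St E Nd Sg) (g G : FS E Nd) : Prop :=
  dm G = dm g ∧ Fn G ∧ (∀ a, Val D.V a g → Val D.V a G) ∧ D.Psi ⟨s.ρ ∪ G, s.F⟩ ≤ D.Psi s

/-- The chosen replacement. -/
noncomputable def Dat.Dc (D : Dat E Nd Sg W) (s : St E Nd Sg) (g : FS E Nd) : FS E Nd :=
  if h : ∃ G, D.CleanOK s g G then Classical.choose h else ∅

/-- The state after cleaning `g`. -/
noncomputable def Dat.cleanSt (D : Dat E Nd Sg W) (s : St E Nd Sg) (g : FS E Nd) : St E Nd Sg :=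
  ⟨s.ρ ∪ D.Dc s g, s.F⟩

/-- `Cont a s t n`: from the state `s` there is a real continuation (for the secrets `a`) with at
most `t` main steps that cleans at least `n` addresses. -/
inductive Dat.Cont (D : Dat E Nd Sg W) (a : E → W) : St E Nd Sg → ℕ → ℕ → Prop
  | zero (s : St E Nd Sg) (t : ℕ) : Val D.V a s.ρ → Dat.Cont D a s t 0
  | main (s : St E Nd Sg) (t n : ℕ) (σ : Bool) (l : Lf E Nd Sg) :
      Val D.V a s.ρ → D.MainOK s σ l → Dat.Cont D a (D.mainSt s σ l) t n →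
      Dat.Cont D a s (t + 1) n
  | clean (s : St E Nd Sg) (t n : ℕ) (g : FS E Nd) :
      Val D.V a s.ρ → D.Heavy s g → Val D.V a g →
      Dat.Cont D a (D.cleanSt s g) t (n - g.card) → Dat.Cont D a s t n

/-- The invariants of a state from which `t` main steps remain. -/
structure Dat.Inv (D : Dat E Nd Sg W) (s : St E Nd Sg) (t : ℕ) : Prop where
  fn : Fn s.ρ
  psi : D.Psi s ≤ D.M - (t : ℝ) * (D.M / (2 * (Tp D.p : ℝ)))
  len : ∀ σ, ∀ l ∈ s.F σ, l.2.card + t ≤ Tp D.p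
  num : ∀ σ, ∑ l ∈ s.F σ, (1 / (2 * (D.p : ℝ))) ^ l.2.card ≤ 2 ^ D.p

/-- Bound for twice the number of main moves. -/
noncomputable def Dat.C1 (D : Dat E Nd Sg W) : ℝ := 4 * 2 ^ D.p * (2 * (D.p : ℝ)) ^ Hp D.p

/-- The potential of side `σ`: real leaves compatible with `ρ`, keep weights. -/
noncomputable def Dat.Phi (D : Dat E Nd Sg W) (a : E → W) (s : St E Nd Sg) (σ : Bool) : ℝ :=
  ∑ l ∈ (s.F σ).filter (fun l => Val D.V a l.2 ∧ Fn (s.ρ ∪ l.2)),
    (1 / (8 * (D.p : ℝ))) ^ l.2.card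

/-- Cover: every world `U ⊇ ρ` of the family `Ws` has a leaf with the string `Y U` whose record
is contained in `U`. -/
def Cov {E Nd Sg : Type} (Ws : Set (FS E Nd)) (Y : FS E Nd → Sg) (ρ : FS E Nd)
    (F : Finset (Lf E Nd Sg)) : Prop :=
  ∀ U ∈ Ws, ρ ⊆ U → ∃ l ∈ F, l.1 = Y U ∧ l.2 ⊆ U

end

/-! ## Rows -/

/-- **CNT** (30). `Fintype.card_piFinset`: the functions `a` valid for `ρ` lie in the product of
the sets `{x | w ∈ V e x}` (at most one element, by `disj`) for the addresses `e ∈ dm ρ` and of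
`univ` for the others; `(dm ρ).card = ρ.card` as `ρ` is a partial function. -/
def CNTStmt : Prop :=
  ∀ {E Nd Sg W : Type} [Fintype E] [Fintype W] [Fintype Sg] (D : Dat E Nd Sg W) (ρ : FS E Nd),
    Fn ρ → ((univ : Finset (E → W)).filter (fun a => Val D.V a ρ)).card * (D.q ^ 4) ^ ρ.card ≤
      (D.q ^ 4) ^ Fintype.card E

/-- **ONE** (40). The weight of a record `u` after one fact `f` at a new address was added.
(1) `f.1 ∉ dm u`: `(insert f ρ) ∪ u` is a partial function iff `ρ ∪ u` is, `u ∩ insert f ρ =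
u ∩ ρ`, `u \ insert f ρ = u \ ρ`.  (2) `f ∈ u`: same, but one fact moves from `u \ ρ` to the
intersection: factor `q * q`.  (3) `f.1 ∈ dm u`, `f ∉ u`: the union is no partial function.
(4), (5) immediate.  `0 < q` follows from `D.hq`, `D.hp`. -/
def ONEStmt : Prop :=
  ∀ {E Nd Sg W : Type} [Fintype E] [Fintype W] [Fintype Sg] (D : Dat E Nd Sg W)
    (ρ u : FS E Nd) (f : Fct E Nd), f.1 ∉ dm ρ →
    (f.1 ∉ dm u → D.wt (insert f ρ) u = D.wt ρ u) ∧
    (f ∈ u → D.wt (insert f ρ) u = (D.q : ℝ) ^ 2 * D.wt ρ u) ∧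
    (f.1 ∈ dm u → f ∉ u → D.wt (insert f ρ) u = 0) ∧
    0 ≤ D.wt ρ u ∧ D.wt (insert f ρ) u ≤ (D.q : ℝ) ^ 2 * D.wt ρ u

/-- **ADD** (90, needs ONE). Growth when the facts of a record `v` enter `ρ`.  Pointwise in the
leaf `u`: with `D' = u ∩ (v \ ρ)` one has `wt (ρ ∪ v) u ≤ (q^2)^|D'| wt ρ u` (add the facts of
`v \ ρ` one at a time: induction on a finite set with `ONE`; a fact whose address is in `dm u` but
which is not in `u` gives `0`), hence `≤ wt ρ u + ∑_{∅ ≠ g ⊆ v \ ρ, g ⊆ u} (q^2)^|g| wt ρ u` (all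
terms are nonnegative and `g = D'` is one of them, if `D'` is nonempty).  Sum over all leaves and
exchange the sums: this gives the first inequality.  Second: all nonempty `g ⊆ v \ ρ` are `Fn` and
disjoint from `dm ρ` (as `Fn (ρ ∪ v)`) and not heavy, so their term is `≤ ε^|g| M`, and
`∑_{g ⊆ X} ε^|g| = (1 + ε)^|X|` (`Finset.sum_pow_mul_eq_add_pow` or
`Finset.prod_one_add`). -/
def ADDStmt : Prop :=
  ∀ {E Nd Sg W : Type} [Fintype E] [Fintype W] [Fintype Sg] (D : Dat E Nd Sg W)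
    (s : St E Nd Sg) (v : FS E Nd), Fn (s.ρ ∪ v) →
    D.Psi ⟨s.ρ ∪ v, s.F⟩ ≤ D.Psi s +
      ∑ g ∈ (v \ s.ρ).powerset.filter (fun g => g.Nonempty),
        ((D.q : ℝ) ^ 2) ^ g.card * D.mm s g ∧
    ((∀ g ⊆ v \ s.ρ, ¬ D.Heavy s g) →
      D.Psi ⟨s.ρ ∪ v, s.F⟩ ≤ D.Psi s + ((1 + D.ε) ^ (v \ s.ρ).card - 1) * D.M)

/-- **LEN** (50). A leaf `l` compatible with `ρ` with no heavy subset of `l.2 \ ρ` and
`Psi ≤ M` has at most `p + 2` facts.  Let `g = l.2 \ ρ`.  If `g = ∅`: `q^|l.2| = wt ρ l.2 ≤ Psi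
≤ M = 2^(p+2)`.  Otherwise `g` is nonempty, `Fn`, disjoint from `dm ρ`, so not heavy:
`(q^2)^|g| wt ρ l.2 ≤ (q^2)^|g| mm s g < ε^|g| M ≤ M` and `(q^2)^|g| wt ρ l.2 = q^|l.2|`.
As `q ≥ 2`: `2^|l.2| ≤ 2^(p+2)`. -/
def LENStmt : Prop :=
  ∀ {E Nd Sg W : Type} [Fintype E] [Fintype W] [Fintype Sg] (D : Dat E Nd Sg W)
    (s : St E Nd Sg) (σ : Bool) (l : Lf E Nd Sg), D.Psi s ≤ D.M → l ∈ s.F σ →
    Fn (s.ρ ∪ l.2) → (∀ g ⊆ l.2 \ s.ρ, ¬ D.Heavy s g) → l.2.card ≤ Hp D.p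

/-- **KID** (60). (1) `|kids| ≤ 2 p`.  (2) For any nonnegative weight `φ` of leaves and any
`c ≥ 0` with `φ l' ≤ c φ l` for all children `l'` of a challenged compatible leaf `l ∈ F`: the sum
over `stp` is at most the sum over the compatible unchallenged leaves plus `2 p c` times the sum
over the compatible challenged leaves (`Finset.sum_biUnion_le`-type estimate: the sum of a
nonnegative function over a union is at most the sum of the sums).  (3) facts about children: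
`l' ∈ kids l` iff `l' = (l.1, insert f l.2)` with `f.1 ∉ dm (κ ∪ l.2)`, `(f.1, f.2.1) ∈ qs`;
then `|l'.2| = |l.2| + 1`. -/
def KIDStmt : Prop :=
  ∀ {E Nd Sg W : Type} [Fintype E] [Fintype W] [Fintype Sg] (D : Dat E Nd Sg W)
    (σ : Bool) (κ : FS E Nd) (t : Sg),
    (∀ l : Lf E Nd Sg, (D.kids σ κ t l).card ≤ 2 * D.p) ∧
    (∀ l l' : Lf E Nd Sg, l' ∈ D.kids σ κ t l ↔ ∃ f : Fct E Nd, f.1 ∉ dm (κ ∪ l.2) ∧
      (f.1, f.2.1) ∈ D.qs σ l.1 t (ans (κ ∪ l.2)) ∧ l' = (l.1, insert f l.2)) ∧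
    (∀ l l' : Lf E Nd Sg, l' ∈ D.kids σ κ t l → l'.1 = l.1 ∧ l.2 ⊆ l'.2 ∧
      l'.2.card = l.2.card + 1) ∧
    (∀ (F : Finset (Lf E Nd Sg)) (φ : Lf E Nd Sg → ℝ) (c : ℝ), 0 ≤ c → (∀ l, 0 ≤ φ l) →
      (∀ l ∈ F, Fn (κ ∪ l.2) → D.chal σ l.1 t (ans (κ ∪ l.2)) = true →
        ∀ l' ∈ D.kids σ κ t l, φ l' ≤ c * φ l) →
      ∑ l ∈ D.stp σ κ t F, φ l ≤
        ∑ l ∈ F.filter (fun l => Fn (κ ∪ l.2) ∧ ¬ D.chal σ l.1 t (ans (κ ∪ l.2)) = true), φ l +
        2 * (D.p : ℝ) * c * ∑ l ∈ F.filter (fun l => Fn (κ ∪ l.2) ∧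
          D.chal σ l.1 t (ans (κ ∪ l.2)) = true), φ l)

/-- **CHL** (50, needs KID). The total weight does not grow in a challenge step.  `KID (4)` with
`φ l = wt κ l.2`, `c = 1/q`: a child has the record `insert f u`, `f.1 ∉ dm (κ ∪ u)`, so
`κ ∪ insert f u` is a partial function, the intersection with `κ` is the same and the difference
has one element more: weight `wt κ u * (1/q)`.  `2 p / q ≤ 1` by `D.hq` (`Tp p ≥ 4 p`,
`Hp p ≥ 1`). -/
def CHLStmt : Prop :=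
  ∀ {E Nd Sg W : Type} [Fintype E] [Fintype W] [Fintype Sg] (D : Dat E Nd Sg W)
    (σ : Bool) (κ : FS E Nd) (t : Sg) (F : Finset (Lf E Nd Sg)),
    ∑ l ∈ D.stp σ κ t F, D.wt κ l.2 ≤ ∑ l ∈ F, D.wt κ l.2

/-- **CL1** (60, needs ONE). Averaging over the needle of one new address.  Enough
(`Finset.exists_le_of_sum_le`): `∑_{w ∈ V0} Psi ⟨insert (e, w, false) ρ, F⟩ ≤ |V0| Psi ⟨ρ, F⟩`;
exchange the sums; for one record `u`: if `e ∉ dm u` all terms are `wt ρ u`; if `e ∈ dm u` and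
`¬ Fn u` all weights are `0`; otherwise the fact of `u` at `e` is unique, at most one `w` has
`(e, w, false) ∈ u` and its term is `q^2 wt ρ u ≤ |V0| wt ρ u`, the other terms are `0`. -/
def CL1Stmt : Prop :=
  ∀ {E Nd Sg W : Type} [Fintype E] [Fintype W] [Fintype Sg] (D : Dat E Nd Sg W)
    (s : St E Nd Sg) (e : E) (V0 : Finset Nd), e ∉ dm s.ρ → D.q ^ 2 ≤ V0.card →
    ∃ w ∈ V0, D.Psi ⟨insert (e, w, false) s.ρ, s.F⟩ ≤ D.Psi s

/-- **CLN** (60, needs CL1). Induction on the set `g` (`Finset.induction_on`), one fact at a time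
with `CL1` for `V0 = V e x`, where `x` is the secret value with `w ∈ V e x` for the needle `w` of
`g` at `e`; validity: if `w ∈ V e (a e)` then `a e = x` by `disj`, so the new needle is valid. -/
def CLNStmt : Prop :=
  ∀ {E Nd Sg W : Type} [Fintype E] [Fintype W] [Fintype Sg] (D : Dat E Nd Sg W)
    (s : St E Nd Sg) (g : FS E Nd), Fn g → Disjoint (dm g) (dm s.ρ) →
    (∀ f ∈ g, ∃ x, f.2.1 ∈ D.V f.1 x) → ∃ G, D.CleanOK s g G

/-- **HSM** (90). The heavy sets: a heavy `g` has `mm s g > 0`, so `g` is contained in some record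
(hence the finite set of heavy sets below contains all heavy sets: first clause).  Second clause:
`∑_{g heavy} (1/q^3)^|g| ≤ ∑_g (1/q^3)^|g| (q^2)^|g| mm s g / (ε^|g| M)
= (1/M) ∑_leaves wt ρ u ∑_{∅ ≠ g ⊆ u} (1/(q ε))^|g|
≤ (1/M) Psi ((1 + 1/(q ε))^T - 1) ≤ (1 + 4HT/q)^T - 1 ≤ 1/2`, as `|u| ≤ T` and
`T * 4HT/q ≤ 1/4` (`(1 + x)^T ≤ exp (T x) ≤ 1 + 2 T x` for `T x ≤ 1`). -/
def HSMStmt : Prop :=
  ∀ {E Nd Sg W : Type} [Fintype E] [Fintype W] [Fintype Sg] (D : Dat E Nd Sg W)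
    (s : St E Nd Sg), D.Psi s ≤ D.M → (∀ σ, ∀ l ∈ s.F σ, l.2.card ≤ Tp D.p) →
    ∃ hv : Finset (FS E Nd), (∀ g, g ∈ hv ↔ D.Heavy s g) ∧
      ∑ g ∈ hv, (1 / (D.q : ℝ) ^ 3) ^ g.card ≤ 1 / 2

/-- **MMV** (50, needs LEN). The number of main moves: by `LEN` the records have at most `H`
facts, so each contributes at least `(1/(2p))^H` to the sum of `Inv.num`; two sides. -/
def MMVStmt : Prop :=
  ∀ {E Nd Sg W : Type} [Fintype E] [Fintype W] [Fintype Sg] (D : Dat E Nd Sg W)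
    (s : St E Nd Sg) (t : ℕ), D.Inv s t →
    ∃ mv : Finset (Bool × Lf E Nd Sg), (∀ x, x ∈ mv ↔ D.MainOK s x.1 x.2) ∧
      2 * (mv.card : ℝ) ≤ D.C1

/-- **GRW** (30). `(1 + ε)^H - 1 ≤ 1 / (2 T)` for `ε = 1/(4HT)`. Bernoulli-type:
`(1 + ε)^H ≤ exp (H ε) ≤ 1 + 2 H ε` for `H ε ≤ 1`. -/
def GRWStmt : Prop :=
  ∀ {E Nd Sg W : Type} [Fintype E] [Fintype W] [Fintype Sg] (D : Dat E Nd Sg W) (m : ℕ),
    m ≤ Hp D.p → (1 + D.ε) ^ m - 1 ≤ 1 / (2 * (Tp D.p : ℝ))

/-- **INV** (90, needs ADD, LEN, KID, CHL, CLN, GRW). The invariants: the start; main moves;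
cleaning moves.  Start: `Psi s0 = 2 |Sg| ≤ 2^(p+1) = M / 2 = M - T (M/(2T))`.  Main move:
`Psi ⟨ρ ∪ v, F⟩ ≤ Psi s + ((1+ε)^|v \ ρ| - 1) M ≤ Psi s + M/(2T)` (`ADD`, `LEN`, `GRW`; `|v| ≤ H`
by `LEN` as `Psi s ≤ M`), then `CHL` for the side `σ`; records grow by at most one fact (`KID`);
`num`: `KID (4)` with `φ l = (1/(2p))^|l.2|`, `c = 1/(2p)`.  Cleaning move: `CLN` and
`Classical.choose_spec`: `Dc s g` satisfies `CleanOK`, `F` is the same, `ρ ∪ G` is a partial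
function as `dm G = dm g` is disjoint from `dm ρ`, and `|ρ ∪ G| = |ρ| + |g|`. -/
def INVStmt : Prop :=
  ∀ {E Nd Sg W : Type} [Fintype E] [Fintype W] [Fintype Sg] (D : Dat E Nd Sg W),
    D.Inv (s0 E Nd Sg) (Tp D.p) ∧
    (∀ (s : St E Nd Sg) (t : ℕ) (σ : Bool) (l : Lf E Nd Sg), D.Inv s (t + 1) →
      D.MainOK s σ l → D.Inv (D.mainSt s σ l) t) ∧
    (∀ (s : St E Nd Sg) (t : ℕ) (g : FS E Nd) (a : E → W), D.Inv s t → D.Heavy s g →
      Val D.V a g → D.Inv (D.cleanSt s g) t ∧ Val D.V a (D.Dc s g) ∧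
        (D.cleanSt s g).ρ.card = s.ρ.card + g.card)

/-- **UNB** (120, needs CNT, HSM, MMV, INV). The union bound over continuations.  Induction on
`t`, for fixed `t` strong induction on `n`.  `n = 0`: `Cont` implies `Val a ρ`; `CNT`.  `n > 0`:
a function `a` with `Cont a s t n` has `Val a ρ` and (main move, only if `t = t' + 1`)
`Cont a (mainSt s σ l) t' n` for some `(σ, l) ∈ mv`, or (cleaning) `Val a g` and
`Cont a (cleanSt s g) t (n - |g|)` for some `g ∈ hv`.  Main moves: each is at most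
`K^|E| K^-|ρ ∪ v| C1^t' q^-n ≤ K^|E| K^-|ρ| C1^t' q^-n`, and `|mv| ≤ C1 / 2`.  Cleaning: if no
`a` has `Val a g` nothing to count, otherwise `INV (3)` and the induction hypothesis give at most
`K^|E| K^-(|ρ| + |g|) C1^t q^-(n - |g|) ≤ K^|E| K^-|ρ| C1^t q^-n (1/q^3)^|g|`
(`K = q^4`; natural subtraction: `q^-(n - |g|) ≤ q^-n q^|g|`), and the sum over `hv` of the last
factor is at most `1/2` (`HSM`; `Psi s ≤ M`, `|l.2| ≤ T` from `Inv`).  Here `K = q ^ 4`. -/
def UNBStmt : Prop :=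
  ∀ {E Nd Sg W : Type} [Fintype E] [Fintype W] [Fintype Sg] (D : Dat E Nd Sg W)
    (t n : ℕ) (s : St E Nd Sg), D.Inv s t →
    (((univ : Finset (E → W)).filter (fun a => D.Cont a s t n)).card : ℝ) *
        ((D.q : ℝ) ^ 4) ^ s.ρ.card ≤
      ((D.q : ℝ) ^ 4) ^ Fintype.card E * D.C1 ^ t * (1 / (D.q : ℝ)) ^ n

/-- **GOD** (40, needs UNB, INV). A good secret function: `UNB` for `s0`, `t = T`, `n = N`:
`C1^T q^-N ≤ 1/2 < 1`, as `C1 ≤ 2^(2 + p + (p+1)(p+2))` (`2 p ≤ 2^(p+1)`) and `q ≥ 2`; the number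
of all functions is `(q^4)^|E| > 0` (`Fintype.card_fun`, `D.hW`). -/
def GODStmt : Prop :=
  ∀ {E Nd Sg W : Type} [Fintype E] [Fintype W] [Fintype Sg] (D : Dat E Nd Sg W),
    ∃ a : E → W, ¬ D.Cont a (s0 E Nd Sg) (Tp D.p) (Np D.p)

/-- **CVS** (60, needs KID). The cover survives a challenge step.  Let `U ∈ Ws`, `κ ⊆ U`
(so `ρ ⊆ U`) with leaf `(Y U, u)`, `u ⊆ U`.  `κ ∪ u ⊆ U`, so it is a partial function.  If the leaf
is challenged: `chal σ (Y U) t (ans (κ ∪ u)) = true` but `chal σ (Y U) t (ans U) = false`, so by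
`D.loc` (both sides: `chal` is `R` or its negation and `qs` is `Q`) there is a query
`(e, w) ∈ qs` with `ans U e w ≠ ans (κ ∪ u) e w`.  If `e ∈ dm (κ ∪ u)` both answers are equal
(the fact at `e` of `κ ∪ u ⊆ U` is the only one of `U` at `e`).  So `e ∉ dm (κ ∪ u)`,
`ans (κ ∪ u) e w = none`, `ans U e w = some b`, `(e, w, b) ∈ U`, and
`(Y U, insert (e, w, b) u)` is a child (`KID (2)`). -/
def CVSStmt : Prop :=
  ∀ {E Nd Sg W : Type} [Fintype E] [Fintype W] [Fintype Sg] (D : Dat E Nd Sg W) (σ : Bool)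
    (Ws : Set (FS E Nd)) (Y : FS E Nd → Sg) (ρ κ : FS E Nd) (t : Sg)
    (F : Finset (Lf E Nd Sg)), (∀ U ∈ Ws, Fn U) →
    (∀ U ∈ Ws, ∀ t', D.chal σ (Y U) t' (ans U) = false) → ρ ⊆ κ →
    Cov Ws Y ρ F → Cov Ws Y κ (D.stp σ κ t F)

/-- **PHI** (110, needs KID). The main step.  `A`, `B`: the real compatible leaves of the sides
`true`, `false`; `φ l = (1/(8p))^|l.2|`.  For `x ∈ A`, `y ∈ B` let `GA x y` :=
`¬ Fn (ρ ∪ y.2 ∪ x.2)` or `x` is challenged by `y.1` at `ρ ∪ y.2 ∪ x.2`, and `GB x y` the same for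
the other side (`ρ ∪ x.2 ∪ y.2` is the same set).  Always `GA x y ∨ GB x y` (the output of the
referee is `false` or `true`).  So one of the double sums `∑ φ x φ y [GA]`, `∑ φ x φ y [GB]` is
at least half of `Phi true * Phi false`; in the first case some `y` has
`∑_x φ x [GA x y] ≥ Phi true / 2`: take `σ = true`, `l = y`.  New real compatible leaves of side
`true`: those with `¬ GA x y`, and children of challenged ones (a real child has a real parent):
by `KID (4)` for `F` := the real leaves compatible with `ρ`, `φ`, `c = 1/(8p)`: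
`Phi' ≤ ∑_{¬ GA} φ + (2p/(8p)) ∑_{GA} φ ≤ 5/8 Phi`.  Other side: fewer leaves are compatible with
`ρ ∪ l.2`.  (`stp` of all formal leaves, filtered by `Val`, is contained in `stp` of the real
leaves compatible with `ρ`.) -/
def PHIStmt : Prop :=
  ∀ {E Nd Sg W : Type} [Fintype E] [Fintype W] [Fintype Sg] (D : Dat E Nd Sg W) (a : E → W)
    (s : St E Nd Sg), 0 < D.Phi a s true → 0 < D.Phi a s false →
    ∃ (σ : Bool) (l : Lf E Nd Sg), l ∈ s.F (!σ) ∧ Val D.V a l.2 ∧ Fn (s.ρ ∪ l.2) ∧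
      D.Phi a (D.mainSt s σ l) σ ≤ 5 / 8 * D.Phi a s σ ∧
      D.Phi a (D.mainSt s σ l) (!σ) ≤ D.Phi a s (!σ)

/-- **LOW** (30). Lower bound: with the cover, a world `U ⊇ ρ` and no heavy real sets, the
potential is at least `(1/(8p))^H`: the leaf of `U` is real and compatible with `ρ`
(`ρ ∪ l.2 ⊆ U`, `U` valid and a partial function), has at most `H` facts (hypothesis), and
`1/(8p) ≤ 1`. -/
def LOWStmt : Prop :=
  ∀ {E Nd Sg W : Type} [Fintype E] [Fintype W] [Fintype Sg] (D : Dat E Nd Sg W) (a : E → W)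
    (s : St E Nd Sg) (σ : Bool) (Ws : Set (FS E Nd)) (Y : FS E Nd → Sg) (U : FS E Nd),
    Cov Ws Y s.ρ (s.F σ) → U ∈ Ws → s.ρ ⊆ U → Fn U → Val D.V a U →
    (∀ l ∈ s.F σ, Val D.V a l.2 → Fn (s.ρ ∪ l.2) → l.2.card ≤ Hp D.p) →
    (1 / (8 * (D.p : ℝ))) ^ Hp D.p ≤ D.Phi a s σ

/-- **END** (30). `4^p (5/8)^T < (1/(8p))^(2H)`.  `(8/5)^2 > 2`, `T = 2 m` with
`m = 2p + 2(p+2)(p+3)`, `8 p ≤ 2^(p+3)`: `(8/5)^T > 2^m = 4^p (2^(p+3))^(2(p+2))
≥ 4^p (8p)^(2H)`. -/
def ENDStmt : Prop :=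
  ∀ p : ℕ, 1 ≤ p → (4 : ℝ) ^ p * (5 / 8) ^ Tp p <
    (1 / (8 * (p : ℝ))) ^ Hp p * (1 / (8 * (p : ℝ))) ^ Hp p

/-- **PRC** (130, needs LEN, INV, CVS, PHI, LOW, END). The process.  Induction on `t`, for fixed
`t` strong induction on `n`.  `n = 0` contradicts `¬ Cont` (`Cont.zero`).  If there is a heavy `g`
with `Val a g`: `Cont.clean` and `¬ Cont a s t n` give `¬ Cont a (cleanSt s g) t (n - |g|)`; `n -
|g|` is `0` only if `Cont.zero` applies, contradiction, so `|g| < n`; use the induction hypothesis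
for `cleanSt s g` (covers: `ρ` grows, `F` same; potentials do not grow: fewer compatible leaves;
`|ρ| + |g| + t H + (n - |g|) ≤ S`; `INV (3)`).  Otherwise all real compatible leaves have at most
`H` facts (`LEN`; subsets of a real set are real; `Psi s ≤ M` from `Inv`), and by the hypothesis
`hext` (`|ρ| ≤ S`) and `LOW` both potentials are at least `(1/(8p))^H`.  `t = 0`: contradiction by
`END`.  `t = t' + 1`: `PHI` gives `σ`, `l`; `MainOK s σ l` holds (subsets of `l.2 \ ρ` are real,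
so not heavy); `¬ Cont a (mainSt s σ l) t' n` by `Cont.main`; `INV (2)`; `Val a (ρ ∪ l.2)`;
`|ρ ∪ l.2| ≤ |ρ| + H`; covers: `CVS` for the side `σ`, trivial for the other side; potentials:
product drops by `5/8`. -/
def PRCStmt : Prop :=
  ∀ {E Nd Sg W : Type} [Fintype E] [Fintype W] [Fintype Sg] (D : Dat E Nd Sg W) (a : E → W)
    (Ws : Bool → Set (FS E Nd)) (Y : Bool → FS E Nd → Sg),
    (∀ σ, ∀ U ∈ Ws σ, Fn U ∧ Val D.V a U) →
    (∀ σ, ∀ U ∈ Ws σ, ∀ t', D.chal σ (Y σ U) t' (ans U) = false) →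
    (∀ σ ρ, Fn ρ → Val D.V a ρ → ρ.card ≤ Sp D.p → ∃ U ∈ Ws σ, ρ ⊆ U) →
    ∀ (t n : ℕ) (s : St E Nd Sg), D.Inv s t → Val D.V a s.ρ →
      s.ρ.card + t * Hp D.p + n ≤ Sp D.p → (∀ σ, Cov (Ws σ) (Y σ) s.ρ (s.F σ)) →
      D.Phi a s true * D.Phi a s false ≤ 4 ^ D.p * (5 / 8) ^ Tp D.p * (8 / 5) ^ t →
      D.Cont a s t n

/-- **COR** (40, needs GOD, PRC, INV). The core theorem: by contradiction; for the good `a` of
`GOD` choose `Y true U` for `U ∈ Yes a` with `R (Y U) z (ans U) = true` for all `z`, and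
`Y false U` for `U ∈ No a`; apply `PRC` to `s0`: covers with the empty record, `Phi a s0 σ =
|Sg| ≤ 2^p`, `(5/8)^T (8/5)^T = 1`, `0 + T H + N = S`. -/
def CORNeeds : Prop := CoreStmt

end Pool.ORB
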