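import Mathlib

/-!
# MP_5182ad_lc, oracle barrier: oracle machines and the relativised classes

Languages and oracles are sets of bit strings.  An oracle machine has a finite control and
finitely many stacks of bits (two stacks are one Turing tape); stack `0` holds the input at the
start, and the content of stack `0` is the string asked in a query state.
-/

open Polynomial

namespace Pool.ORB

/-- What a machine does with one of its stacks in one step. -/
inductive Act
  | keep
  | pop
  | push (b : Bool)

/-- Effect of an action on a stack (the head of the list is the top of the stack). -/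
def Act.ap : Act → List Bool → List Bool
  | Act.keep, l => l
  | Act.pop, l => l.tail
  | Act.push b, l => b :: l

/-- A deterministic oracle machine with states `Fin (n + 1)` (state `0` is the start) and stacks
`Fin (k + 1)`.  In state `q` it sees the top symbols of all stacks and, if `ask q = true`, also
one bit: whether the content of stack `0` is in the oracle (otherwise this bit is `false`).
It either halts with an output bit or goes to a new state and acts on each stack. -/
structure OM where
  k : ℕ
  n : ℕ
  ask : Fin (n + 1) → Bool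
  tr : Fin (n + 1) → Bool → (Fin (k + 1) → Option Bool) →
    Bool ⊕ (Fin (n + 1) × (Fin (k + 1) → Act))

/-- Configurations: state and contents of the stacks. -/
abbrev OM.Cfg (M : OM) : Type := Fin (M.n + 1) × (Fin (M.k + 1) → List Bool)

/-- The start: state `0`, the input on stack `0`, all other stacks empty. -/
def OM.init (M : OM) (x : List Bool) : M.Cfg := (0, fun i => if i = 0 then x else [])

open Classical in
/-- The transition made in configuration `c` with the oracle `O`. -/
noncomputable def OM.step (M : OM) (O : Set (List Bool)) (c : M.Cfg) : Bool ⊕ M.Cfg :=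
  match M.tr c.1 (M.ask c.1 && decide (c.2 0 ∈ O)) (fun i => (c.2 i).head?) with
  | Sum.inl b => Sum.inl b
  | Sum.inr (q, act) => Sum.inr (q, fun i => (act i).ap (c.2 i))

/-- The output within `t` steps, `none` if the machine does not halt within `t` steps. -/
noncomputable def OM.run (M : OM) (O : Set (List Bool)) : ℕ → M.Cfg → Option Bool
  | 0, _ => none
  | t + 1, c =>
    match M.step O c with
    | Sum.inl b => some b
    | Sum.inr c' => M.run O t c'

open Classical in
/-- With the oracle `O` the machine decides the language `L` in time `P (length of the input)`. -/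
def OM.Decides (M : OM) (O L : Set (List Bool)) (P : ℕ[X]) : Prop :=
  ∀ x : List Bool, M.run O (P.eval x.length) (M.init x) = some (decide (x ∈ L))

/-- The pair encoding `1^{|x|} 0 x y`. -/
def pair (x y : List Bool) : List Bool := List.replicate x.length true ++ false :: (x ++ y)

/-- `P^O`. -/
def PT (O : Set (List Bool)) : Set (Set (List Bool)) := {L | ∃ (M : OM) (P : ℕ[X]), M.Decides O L P}

/-- `NP^O`: `x ∈ L` iff there is `w` of length `q(|x|)` with `(x, w) ∈ R`, `R ∈ P^O`. -/
def NP (O : Set (List Bool)) : Set (Set (List Bool)) :=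
  {L | ∃ R ∈ PT O, ∃ q : ℕ[X], ∀ x : List Bool,
    x ∈ L ↔ ∃ w : List Bool, w.length = q.eval x.length ∧ pair x w ∈ R}

/-- `coNP^O`. -/
def coNP (O : Set (List Bool)) : Set (Set (List Bool)) := {L | Lᶜ ∈ NP O}

/-- `UP^O`: as `NP^O`, with at most one `w` of length `q(|x|)` with `(x, w) ∈ R` for every `x`. -/
def UP (O : Set (List Bool)) : Set (Set (List Bool)) :=
  {L | ∃ R ∈ PT O, ∃ q : ℕ[X],
    (∀ x w w' : List Bool, w.length = q.eval x.length → w'.length = q.eval x.length →
      pair x w ∈ R → pair x w' ∈ R → w = w') ∧
    ∀ x : List Bool, x ∈ L ↔ ∃ w : List Bool, w.length = q.eval x.length ∧ pair x w ∈ R}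

/-- `coUP^O`. -/
def coUP (O : Set (List Bool)) : Set (Set (List Bool)) := {L | Lᶜ ∈ UP O}

/-- `C/poly`. -/
def Adv (C : Set (Set (List Bool))) : Set (Set (List Bool)) :=
  {L | ∃ A ∈ C, ∃ (q : ℕ[X]) (adv : ℕ → List Bool), (∀ n, (adv n).length ≤ q.eval n) ∧
    ∀ x : List Bool, x ∈ L ↔ pair x (adv x.length) ∈ A}

/-- The levels `Σ_k^{p,O}`: `Σ_0^{p,O} = P^O`, and `L ∈ Σ_{k+1}^{p,O}` iff for some `R` whose
complement is in `Σ_k^{p,O}` and some polynomial `q`: `x ∈ L` iff there is `w` of length
`q(|x|)` with `(x, w) ∈ R`. -/
def Sig (O : Set (List Bool)) : ℕ → Set (Set (List Bool))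
  | 0 => PT O
  | k + 1 => {L | ∃ R : Set (List Bool), Rᶜ ∈ Sig O k ∧ ∃ q : ℕ[X], ∀ x : List Bool,
      x ∈ L ↔ ∃ w : List Bool, w.length = q.eval x.length ∧ pair x w ∈ R}

/-- `PH^O`. -/
def PH (O : Set (List Bool)) : Set (Set (List Bool)) := ⋃ k, Sig O k

/-- `S_2^{p,O}`: there are `R ∈ P^O` and a polynomial `p` such that, with `y, z` ranging over
strings of length `p(|x|)`: if `x ∈ L` then some `y` has `(x, y, z) ∈ R` for all `z`, and if
`x ∉ L` then some `z` has `(x, y, z) ∉ R` for all `y`. -/
def S2 (O : Set (List Bool)) : Set (Set (List Bool)) :=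
  {L | ∃ R ∈ PT O, ∃ p : ℕ[X], ∀ x : List Bool,
    (x ∈ L → ∃ y : List Bool, y.length = p.eval x.length ∧
      ∀ z : List Bool, z.length = p.eval x.length → pair x (pair y z) ∈ R) ∧
    (x ∉ L → ∃ z : List Bool, z.length = p.eval x.length ∧
      ∀ y : List Bool, y.length = p.eval x.length → pair x (pair y z) ∉ R)}

/-- **The target.**  Relative to some oracle the hypothesis of the question holds and its
conclusion fails; even `Σ_2^{p,O}` is not contained in `S_2^{p,O}`. -/
def TargetStmt : Prop :=
  ∃ O : Set (List Bool), NP O ⊆ Adv (NP O ∩ coNP O) ∧ ¬ (Sig O 2 ⊆ S2 O) ∧ PH O ≠ S2 O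

end Pool.ORB
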