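import Mathlib
import Pool.Agent.H16.ORB.Defs
import Pool.Agent.H16.ORB.C

/-!
# MP_5182ad_lc, oracle barrier: statements of the part on oracles (section 5 of the page)
-/

open Polynomial Finset

namespace Pool.ORB

/-! ## Addresses, strings, worlds -/

/-- Addresses: `(0, z)` are rows, `(i + 1, z)` belongs to the `i`-th language. -/
abbrev Ad : Type := ℕ × List Bool

/-- Prefix of the strings: `0` for rows, `1^{i+1} 0 b` for the `i`-th language. -/
def pre : ℕ → Bool → List Bool
  | 0, _ => [false]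
  | i + 1, b => List.replicate (i + 1) true ++ [false, b]

/-- The string of the fact `(e, w, b)`. -/
def str (e : Ad) (w : List Bool) (b : Bool) : List Bool := pre e.1 b ++ pair e.2 w

/-- The length of the strings of the address `e` (needles have the length of `e.2`). -/
def lev (e : Ad) : ℕ := (pre e.1 true).length + 3 * e.2.length + 1

/-- Worlds: at most one needle and bit for each address. -/
abbrev Wo : Type := Ad → Option (List Bool × Bool)

/-- The oracle of a world. -/
def orc (ω : Wo) : Set (List Bool) :=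
  {s | ∃ (e : Ad) (w : List Bool) (b : Bool), ω e = some (w, b) ∧ w.length = e.2.length ∧
    s = str e w b}

/-- The worlds agree on all addresses of level at most `n`. -/
def Agr (n : ℕ) (ω ω' : Wo) : Prop := ∀ e, lev e ≤ n → ω e = ω' e

/-- The oracles agree on all strings of length at most `n`. -/
def AgO (n : ℕ) (O O' : Set (List Bool)) : Prop := ∀ s : List Bool, s.length ≤ n → (s ∈ O ↔ s ∈ O')

/-- Enumerations of machines with a time bound and a length polynomial. -/
abbrev Enu : Type := ℕ → OM × ℕ[X] × ℕ[X]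

/-- The clocked machine accepts `x`. -/
def Acc (M : OM) (P : ℕ[X]) (O : Set (List Bool)) (x : List Bool) : Prop :=
  M.run O (P.eval x.length) (M.init x) = some true

/-- Truth of the `i`-th clocked `NP` language with the oracle `O`. -/
def Tr (en : Enu) (i : ℕ) (O : Set (List Bool)) (x : List Bool) : Prop :=
  ∃ w : List Bool, w.length = (en i).2.2.eval x.length ∧ Acc (en i).1 (en i).2.1 O (pair x w)

/-- Length of the input `pair x w` as a polynomial in `|x|`. -/
noncomputable def inl (en : Enu) (i : ℕ) : ℕ[X] := 2 * X + 1 + (en i).2.2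

/-- Length of the names of the `i`-th language: larger than all queries of its machine. -/
noncomputable def al (en : Enu) (i : ℕ) : ℕ[X] :=
  inl en i + (en i).2.1.comp (inl en i) + (C i + 2 * X + 1)

/-- Legal worlds: needles have the right length, every address `(i + 1, z)` has a needle, and for
all `i`, `n` some name `a` of length `al i n` gives the truth of the `i`-th language on all
strings of length `n`. -/
structure Legal (en : Enu) (ω : Wo) : Prop where
  wf : ∀ e w b, ω e = some (w, b) → w.length = e.2.length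
  tot : ∀ i z, ω (i + 1, z) ≠ none
  leg : ∀ i n, ∃ a : List Bool, a.length = (al en i).eval n ∧ ∀ x : List Bool, x.length = n →
    ((∃ w, ω (i + 1, pair x a) = some (w, true)) ↔ Tr en i (orc ω) x)

/-- The language in `Σ_2^{p,O}`: some row of `x` is empty. -/
def LL (O : Set (List Bool)) : Set (List Bool) :=
  {x | ∃ y : List Bool, y.length = x.length ∧ ∀ w : List Bool, w.length = (pair x y).length →
    false :: pair (pair x y) w ∉ O}

/-- The clocked machine `(M, P)` with length polynomial `r` fails to be an `S_2` machine for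
`LL O`. -/
def Fail (M : OM) (P r : ℕ[X]) (O : Set (List Bool)) : Prop :=
  ∃ x : List Bool,
    (x ∈ LL O ∧ ∀ y : List Bool, y.length = r.eval x.length →
      ∃ z : List Bool, z.length = r.eval x.length ∧ ¬ Acc M P O (pair x (pair y z))) ∨
    (x ∉ LL O ∧ ∀ z : List Bool, z.length = r.eval x.length →
      ∃ y : List Bool, y.length = r.eval x.length ∧ Acc M P O (pair x (pair y z)))

/-! ## Data of one stage -/

/-- The string `1^n`. -/
def un (n : ℕ) : List Bool := List.replicate n true

/-- The addresses of the stage: the rows of `1^n` and the active addresses with level in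
`(n, τ]`. -/
def InE (n τ : ℕ) (e : Ad) : Prop :=
  (e.1 = 0 ∧ ∃ y : List Bool, y.length = n ∧ e.2 = pair (un n) y) ∨
    (e.1 ≠ 0 ∧ e.1 ≤ e.2.length + 1 ∧ n < lev e ∧ lev e ≤ τ)

/-- The default value of the other addresses with level in `(n, τ]`. -/
def dfl (e : Ad) : Option (List Bool × Bool) :=
  if e.1 = 0 then none else some (List.replicate e.2.length false, false)

/-- Worlds of the stage: legal, equal to `ω` up to level `n`, default outside `E`. -/
def Ext (en : Enu) (ω : Wo) (n τ : ℕ) (EE : Finset Ad) (ω' : Wo) : Prop :=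
  Legal en ω' ∧ Agr n ω ω' ∧ ∀ e, e ∉ EE → n < lev e → lev e ≤ τ → ω' e = dfl e

open Classical in
/-- The facts of a world at the addresses of the stage. -/
noncomputable def fac (EE : Finset Ad) (ω' : Wo) : FS {e // e ∈ EE} (List Bool) :=
  (univ : Finset {e // e ∈ EE}).biUnion (fun e =>
    match ω' e.1 with
    | some (w, b) => {(e, w, b)}
    | none => ∅)

open Classical in
/-- The valid needles of the address `e` for the secret value `x`: the words of length `|e.2|` that
begin with `x`. -/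
noncomputable def ndl (k : ℕ) (EE : Finset Ad) (e : {e // e ∈ EE}) (x : List.Vector Bool k) :
    Finset (List Bool) :=
  ((univ : Finset (List.Vector Bool e.1.2.length)).image (fun v => v.1)).filter
    (fun w => w.take k = x.1)

open Classical in
/-- The oracle read off from answers `g` at the addresses of the stage. -/
def orcg (ω : Wo) (n : ℕ) (EE : Finset Ad) (g : {e // e ∈ EE} → List Bool → Option Bool) :
    Set (List Bool) :=
  {s | ∃ (e : Ad) (w : List Bool) (b : Bool), w.length = e.2.length ∧ s = str e w b ∧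
    ((∃ h : e ∈ EE, g ⟨e, h⟩ w = some b) ∨
      (e ∉ EE ∧ lev e ≤ n ∧ ω e = some (w, b)) ∨
      (e ∉ EE ∧ n < lev e ∧ dfl e = some (w, b)))}

/-! ## Rows -/

/-- **LOC** (60). Locality of a run: induction on `t`; the query asked in the first step is the
content of stack `0`, which grows by at most one bit in each step.  (If the machine halts at once
or does not ask, the set may still contain this string.) -/
def LOCStmt : Prop :=
  ∀ (M : OM) (O : Set (List Bool)) (t : ℕ) (c : M.Cfg),
    ∃ Q : Finset (List Bool), Q.card ≤ t ∧ (∀ s ∈ Q, s.length ≤ (c.2 0).length + t) ∧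
      ∀ O' : Set (List Bool), (∀ s ∈ Q, (s ∈ O' ↔ s ∈ O)) → M.run O' t c = M.run O t c

/-- **PRE** (80). The machines `v ↦ [c ++ v ∈ O]` and its negation.  One stack (`k = 0`), states
`0, ..., |c|`: state `j < |c|` pushes the letter `c[|c| - 1 - j]` and goes to `j + 1`; state `|c|`
asks and halts with the answer (or its negation); time `|c| + 1` (constant polynomial). -/
def PREStmt : Prop :=
  ∀ (O : Set (List Bool)) (c : List Bool),
    {v : List Bool | c ++ v ∈ O} ∈ PT O ∧ {v : List Bool | c ++ v ∉ O} ∈ PT O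

/-- **ENU** (40). There is a surjective enumeration: `OM` is countable (a sigma type of finite
function types), polynomials over `ℕ` are countable. -/
def ENUStmt : Prop := ∃ en : Enu, Function.Surjective en

/-- **FIX** (30). Causal fixed points: iterate `Φ` from anything; `Φ^[m] ω0 e` is constant for
`m > lev e`; `ω e := Φ^[lev e + 1] ω0 e`. -/
def FIXStmt : Prop :=
  ∀ (A X : Type) (lv : A → ℕ) (Φ : (A → X) → A → X), Nonempty X →
    (∀ ω ω' e, (∀ e', lv e' < lv e → ω e' = ω' e') → Φ ω e = Φ ω' e) → ∃ ω : A → X, Φ ω = ω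

/-- **STR** (60). Lengths and injectivity: `|pair x y| = 2|x| + 1 + |y|`; `pair` is injective;
`|str e w b| = lev e` if `|w| = |e.2|`; the string determines the address and the needle, and the
bit unless `e` is a row (count the leading ones); `|e.2| < lev e`. -/
def STRStmt : Prop :=
  (∀ x y : List Bool, (pair x y).length = 2 * x.length + 1 + y.length) ∧
  (∀ x y x' y' : List Bool, pair x y = pair x' y' → x = x' ∧ y = y') ∧
  (∀ e w b, w.length = e.2.length → (str e w b).length = lev e) ∧
  (∀ e w b e' w' b', str e w b = str e' w' b' → e = e' ∧ w = w' ∧ (e.1 ≠ 0 → b = b')) ∧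
  (∀ e : Ad, 3 * e.2.length + 2 ≤ lev e ∧ lev e ≤ e.1 + 3 * e.2.length + 3 ∧
    (e.1 = 0 → lev e = 3 * e.2.length + 2) ∧ (e.1 ≠ 0 → lev e = e.1 + 3 * e.2.length + 3))

/-- **ORW** (40, needs STR). Membership in the oracle of a world.  Third clause: for every
string `s` with `|s| ≤ n`, if `s = str e w b`, `|w| = |e.2|`, then `lev e = |s| ≤ n`. -/
def ORWStmt : Prop :=
  (∀ (ω : Wo) (i : ℕ) (z w : List Bool) (b : Bool), w.length = z.length →
    (str (i + 1, z) w b ∈ orc ω ↔ ω (i + 1, z) = some (w, b))) ∧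
  (∀ (ω : Wo) (z w : List Bool), w.length = z.length →
    (false :: pair z w ∈ orc ω ↔ ∃ b, ω (0, z) = some (w, b))) ∧
  (∀ (n : ℕ) (ω ω' : Wo), Agr n ω ω' → AgO n (orc ω) (orc ω'))

/-- **ACC** (40, needs LOC, STR). Agreement of runs: `Acc` on `x` depends on the oracle up to length
`|x| + P(|x|)`; hence `Tr en i` on `x` depends on the oracle up to length
`(al en i).eval |x|`, which is below the level of the address `(i + 1, pair x a)` of a name `a`
of that length. Also `i ≤ al`, `2|x| + 1 ≤ al`. -/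
def ACCStmt : Prop :=
  (∀ (M : OM) (P : ℕ[X]) (O O' : Set (List Bool)) (x : List Bool),
    AgO (x.length + P.eval x.length) O O' → (Acc M P O x ↔ Acc M P O' x)) ∧
  (∀ (en : Enu) (i : ℕ) (O O' : Set (List Bool)) (x : List Bool),
    AgO ((al en i).eval x.length) O O' → (Tr en i O x ↔ Tr en i O' x)) ∧
  (∀ (en : Enu) (i m : ℕ), i ≤ (al en i).eval m ∧ 2 * m + 1 ≤ (al en i).eval m)

/-- **NUM** (70). Polynomials are below `2^κ` for large `κ`: with `n = 24 (κ + 1)`,
`m = r(n)`, input length `2n + 3m + 2`, time `P(2n + 3m + 2)`, `p = time + m + 1`. -/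
def NUMStmt : Prop :=
  ∀ (P r : ℕ[X]) (B : ℕ), ∃ κ : ℕ, B ≤ κ ∧
    16 * Hp (P.eval (2 * (24 * (κ + 1)) + 3 * r.eval (24 * (κ + 1)) + 2) +
        r.eval (24 * (κ + 1)) + 1) *
      (Tp (P.eval (2 * (24 * (κ + 1)) + 3 * r.eval (24 * (κ + 1)) + 2) +
        r.eval (24 * (κ + 1)) + 1)) ^ 2 ≤ 2 ^ κ ∧
    Sp (P.eval (2 * (24 * (κ + 1)) + 3 * r.eval (24 * (κ + 1)) + 2) +
        r.eval (24 * (κ + 1)) + 1) < 2 ^ κ

/-- **FIN** (60, needs STR). The addresses of a stage form a finite set; needles have length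
`≥ 6κ + 5` for `n = 24 (κ + 1)` (rows: `|e.2| = 3n + 1`; others: `n < lev e =
e.1 + 3|e.2| + 3 ≤ 4|e.2| + 4`); all levels are above `n`. -/
def FINStmt : Prop :=
  (∀ n τ : ℕ, ∃ EE : Finset Ad, ∀ e, e ∈ EE ↔ InE n τ e) ∧
  (∀ (n τ κ : ℕ) (e : Ad), n = 24 * (κ + 1) → InE n τ e → 6 * κ + 5 ≤ e.2.length) ∧
  (∀ (n τ : ℕ) (e : Ad), InE n τ e → n < lev e)

/-- **NDL** (60). The needle sets: disjoint for different secrets, at least `(2^κ)^2` elements if
`6κ ≤ |e.2|` and `k = 4κ` (injection `v ↦ x ++ v` from vectors of length `|e.2| - 4κ`),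
membership. -/
def NDLStmt : Prop :=
  ∀ (EE : Finset Ad) (κ : ℕ), (∀ e ∈ EE, 6 * κ ≤ e.2.length) →
    (∀ (e : {e // e ∈ EE}) (x y : List.Vector Bool (4 * κ)), x ≠ y →
      Disjoint (ndl (4 * κ) EE e x) (ndl (4 * κ) EE e y)) ∧
    (∀ (e : {e // e ∈ EE}) (x : List.Vector Bool (4 * κ)),
      (2 ^ κ) ^ 2 ≤ (ndl (4 * κ) EE e x).card) ∧
    (∀ (e : {e // e ∈ EE}) (x : List.Vector Bool (4 * κ)) (w : List Bool),
      w ∈ ndl (4 * κ) EE e x → w.length = e.1.2.length)

/-- **FAC** (60, needs STR, ORW). The facts of a world: membership, partial function, answers; and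
for worlds of the stage the oracle read off from the answers agrees with the oracle of the world
up to length `τ`. (`|s| ≤ τ`, `s = str e w b`, `lev e = |s| ≤ τ`: three cases `e ∈ EE`;
`lev e ≤ n`; `n < lev e ≤ τ`.) Rows: `str (0, z) w b` does not depend on `b`. -/
def FACStmt : Prop :=
  (∀ (EE : Finset Ad) (ω' : Wo) (f : Fct {e // e ∈ EE} (List Bool)),
    f ∈ fac EE ω' ↔ ω' f.1.1 = some (f.2.1, f.2.2)) ∧
  (∀ (EE : Finset Ad) (ω' : Wo), Fn (fac EE ω')) ∧
  (∀ (EE : Finset Ad) (ω' : Wo) (e : {e // e ∈ EE}) (w : List Bool) (b : Bool),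
    ans (fac EE ω') e w = some b ↔ ω' e.1 = some (w, b)) ∧
  (∀ (en : Enu) (ω : Wo) (n τ : ℕ) (EE : Finset Ad) (ω' : Wo), Ext en ω n τ EE ω' →
    AgO τ (orcg ω n EE (ans (fac EE ω'))) (orc ω'))

/-- **QRY** (70, needs LOC, STR). The queries of the stage referee: from the set of strings of
`LOC` take the pairs `(e, w)` with `e ∈ EE` and `s = str e w b` for some `b` (at most one pair for
each string, by `STR`). -/
def QRYStmt : Prop :=
  ∀ (ω : Wo) (n : ℕ) (EE : Finset Ad) (M : OM) (P : ℕ[X]) (x : List Bool)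
    (g : {e // e ∈ EE} → List Bool → Option Bool),
    ∃ Q : Finset ({e // e ∈ EE} × List Bool), Q.card ≤ P.eval x.length ∧
      ∀ g' : {e // e ∈ EE} → List Bool → Option Bool, (∀ y ∈ Q, g' y.1 y.2 = g y.1 y.2) →
        (Acc M P (orcg ω n EE g') x ↔ Acc M P (orcg ω n EE g) x)

/-- **BAS** (40, needs FIX, ORW, ACC, STR). Some legal world exists: fixed point of
`Φ ω e = none` for rows and `some (0^|e.2|, truth)` for `e = (i + 1, z)`, where truth is
`∃ x a, z = pair x a ∧ |a| = al i |x| ∧ Tr en i (orc ω) x`. -/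
def BASStmt : Prop := ∀ en : Enu, ∃ ω : Wo, Legal en ω

/-- **EXT** (180, needs FIX, STR, ORW, ACC, FIN, NDL, FAC). Extension of a real partial world to a
world of the stage, with an empty row and without.  Fixed point (`FIX`, `lv = lev`) of
`Φ ω' e =`
* `ω e` if `lev e ≤ n`;
* the value of `ρ` if `e ∈ EE` is an address of `ρ`;
* rows: `none`, but `some (ν e, false)` in the second case if `e ∈ EE`;
* `some (ν e, truth)` if `e ∈ EE`, `e.1 ≠ 0` (`ν e` an element of `ndl (4κ) EE e (a e)`);
* `dfl e` if `e ∉ EE`, `n < lev e ≤ τ`;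
* `some (0^|e.2|, truth)` if `τ < lev e`, `e.1 ≠ 0`,
truth as in `BAS` for `orc ω'`.  Causal by `ACC`, `ORW (3)`.  `Legal.leg` for `(i, m)`: the level
of `(i + 1, pair x a)` is the same `L` for all `x`, `a`; if `L ≤ n` use `ω` and agreement; if
`n < L` then `|a| = al ≥ 2m + 1` and `i + 1 ≤ |pair x a| + 1`, so `n < L ≤ 4|z| + 4`, `|z| ≤ 2|a|`,
`|a| ≥ 3κ`; there are `2^|a| > |ρ|` names, so one name `a` has no address in `ρ`: all its
addresses have the truth.  Rows in `EE`: `2^n > |ρ|` many. -/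
def EXTStmt : Prop :=
  ∀ (en : Enu) (ω : Wo) (κ n τ : ℕ) (EE : Finset Ad), Legal en ω → n = 24 * (κ + 1) →
    (∀ e, e ∈ EE ↔ InE n τ e) →
    ∀ (a : {e // e ∈ EE} → List.Vector Bool (4 * κ)) (ρ : FS {e // e ∈ EE} (List Bool)),
      Fn ρ → Val (ndl (4 * κ) EE) a ρ → ρ.card < 2 ^ κ →
      (∃ ω' : Wo, Ext en ω n τ EE ω' ∧ ρ ⊆ fac EE ω' ∧ Val (ndl (4 * κ) EE) a (fac EE ω') ∧
        ∃ y : List Bool, y.length = n ∧ ω' (0, pair (un n) y) = none) ∧
      (∃ ω' : Wo, Ext en ω n τ EE ω' ∧ ρ ⊆ fac EE ω' ∧ Val (ndl (4 * κ) EE) a (fac EE ω') ∧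
        ∀ y : List Bool, y.length = n → ω' (0, pair (un n) y) ≠ none)

/-- **STG** (130, needs COR = CoreStmt, LOC/ACC, STR, ORW, NUM, FIN, NDL, FAC, QRY, EXT). One
stage.  `κ ≥ ℓ` from `NUM`, `n = 24 (κ + 1)`, `m = r(n)`, `len = 2n + 3m + 2`, `time = P(len)`,
`τ = len + time`, `EE` from `FIN`.  Core data: `E = {e // e ∈ EE}`, needles `List Bool`,
`Sg = List.Vector Bool m`, `W = List.Vector Bool (4κ)`, `p = time + m + 1`, `q = 2^κ`,
`V = ndl (4κ) EE`, `R y z g = decide (Acc M P (orcg ω n EE g) (pair (un n) (pair y z)))`, `Q` by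
choice from `QRY`; `Yes a` = the `fac EE ω'` with `Ext ω'`, valid, some row of `un n` empty;
`No a` = those with all rows nonempty.  For the world `ω'` given by the core: `Acc` with `orcg
(ans (fac EE ω'))` and with `orc ω''`, `Agr ℓ' ω' ω''`, `ℓ' = max τ (lev (0, pair (un n) (un n)))
+ ℓ + 1`, are the same (`FAC`, `ORW`, `ACC`); `un n ∈ LL (orc ω'')` iff some row is empty in
`ω''` (equivalently in `ω'`): `ORW (2)`, `Legal.wf`. -/
def STGStmt : Prop :=
  ∀ (en : Enu) (M : OM) (P r : ℕ[X]) (ω : Wo) (ℓ : ℕ), Legal en ω →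
    ∃ (ω' : Wo) (ℓ' : ℕ), Legal en ω' ∧ ℓ < ℓ' ∧ Agr ℓ ω ω' ∧
      ∀ ω'' : Wo, Legal en ω'' → Agr ℓ' ω' ω'' → Fail M P r (orc ω'')

/-- **LIM** (80, needs STG, BAS, ORW, ACC, STR). The limit: `ω_0` from `BAS`, `ω_{k+1}, ℓ_{k+1}` from
`STG` for the `k`-th triple; `ω e := ω_{lev e} e` (`ℓ_k ≥ k`). -/
def LIMStmt : Prop :=
  ∀ en : Enu, ∃ ω : Wo, Legal en ω ∧ ∀ k, Fail (en k).1 (en k).2.1 (en k).2.2 (orc ω)

/-- **TGT** (100, needs LIM, PRE, ENU, ORW). The target: `NP O ⊆ Adv (NP O ∩ coNP O)`: `L` is the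
`i`-th language for some `i`, `A = {z | ∃ w, ω (i+1, z) = some (w, true)}`, verifiers
`{v | pre (i+1) b ++ v ∈ O}` with length polynomial `X`; advice = the names.  `LL O ∈ Sig O 2`
(length polynomials `X`, `X`), `LL O ∉ S2 O` by `Fail`. -/
def TGTNeeds : Prop := TargetStmt

end Pool.ORB
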