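import Mathlib
import Pool.Agent.H16.ORB.W

open Classical Polynomial Finset

namespace Pool.ORB

theorem acc_iff {M : OM} {P : ℕ[X]} {O R : Set (List Bool)} (h : M.Decides O R P)
    (x : List Bool) : Acc M P O x ↔ x ∈ R := by
  unfold Acc
  rw [h x]
  simp

theorem np_sub {en : Enu} {ω : Wo} (hen : Function.Surjective en) (hω : Legal en ω)
    (hPRE : PREStmt) (hORW : ORWStmt) : NP (orc ω) ⊆ Adv (NP (orc ω) ∩ coNP (orc ω)) := by
  rintro L ⟨R, ⟨M, P, hMP⟩, q, hq⟩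
  obtain ⟨i, hi⟩ := hen (M, P, q)
  have hz : ∀ (z w : List Bool) (b : Bool), w.length = z.length →
      (pre (i + 1) b ++ pair z w ∈ orc ω ↔ ω (i + 1, z) = some (w, b)) :=
    fun z w b h => hORW.1 ω i z w b h
  refine ⟨{z | ∃ w, ω (i + 1, z) = some (w, true)}, ⟨?_, ?_⟩, al en i,
    fun n => Classical.choose (hω.leg i n), ?_, ?_⟩
  · refine ⟨{v | pre (i + 1) true ++ v ∈ orc ω}, (hPRE (orc ω) (pre (i + 1) true)).1, X, ?_⟩
    intro x
    constructor
    · rintro ⟨w, hw⟩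
      have hl := hω.wf _ _ _ hw
      exact ⟨w, by simpa using hl, (hz x w true hl).2 hw⟩
    · rintro ⟨w, hl, hw⟩
      have hl' : w.length = x.length := by simpa using hl
      exact ⟨w, (hz x w true hl').1 hw⟩
  · show {z | ∃ w, ω (i + 1, z) = some (w, true)}ᶜ ∈ NP (orc ω)
    refine ⟨{v | pre (i + 1) false ++ v ∈ orc ω}, (hPRE (orc ω) (pre (i + 1) false)).1, X, ?_⟩
    intro x
    constructor
    · intro hx
      have hx' : ¬ ∃ w, ω (i + 1, x) = some (w, true) := hx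
      obtain ⟨⟨w, b⟩, hwb⟩ := Option.ne_none_iff_exists'.mp (hω.tot i x)
      have hb : b = false := by
        cases b
        · rfl
        · exact absurd ⟨w, hwb⟩ hx'
      subst hb
      have hl := hω.wf _ _ _ hwb
      exact ⟨w, by simpa using hl, (hz x w false hl).2 hwb⟩
    · rintro ⟨w, hl, hw⟩
      have hl' : w.length = x.length := by simpa using hl
      have h1 := (hz x w false hl').1 hw
      rintro ⟨w', hw'⟩
      rw [h1] at hw'
      simp at hw'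
  · intro n
    exact (Classical.choose_spec (hω.leg i n)).1.le
  · intro x
    have h1 := (Classical.choose_spec (hω.leg i x.length)).2 x rfl
    have h2 : Tr en i (orc ω) x ↔ x ∈ L := by
      unfold Tr
      rw [hi, hq x]
      constructor
      · rintro ⟨w, hl, hw⟩
        exact ⟨w, hl, (acc_iff hMP _).1 hw⟩
      · rintro ⟨w, hl, hw⟩
        exact ⟨w, hl, (acc_iff hMP _).2 hw⟩
    exact h2.symm.trans h1.symm

theorem ll_sig (hPRE : PREStmt) (O : Set (List Bool)) : LL O ∈ Sig O 2 := by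
  show ∃ R : Set (List Bool), Rᶜ ∈ Sig O 1 ∧ ∃ q : ℕ[X], ∀ x : List Bool,
      x ∈ LL O ↔ ∃ w : List Bool, w.length = q.eval x.length ∧ pair x w ∈ R
  refine ⟨{v | ∀ w : List Bool, w.length = v.length → false :: pair v w ∉ O}, ?_, X, ?_⟩
  · show ∃ R : Set (List Bool), Rᶜ ∈ Sig O 0 ∧ ∃ q : ℕ[X], ∀ x : List Bool,
      x ∈ {v | ∀ w : List Bool, w.length = v.length → false :: pair v w ∉ O}ᶜ ↔
        ∃ w : List Bool, w.length = q.eval x.length ∧ pair x w ∈ R
    refine ⟨{v | [false] ++ v ∈ O}, ?_, X, ?_⟩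
    · exact (hPRE O [false]).2
    · intro x
      simp only [Set.mem_compl_iff, Set.mem_setOf_eq, not_forall, not_not, exists_prop,
        Polynomial.eval_X]
      rfl
  · intro x
    simp only [Polynomial.eval_X]
    rfl

theorem ll_not_s2 {en : Enu} {ω : Wo} (hen : Function.Surjective en)
    (hF : ∀ k, Fail (en k).1 (en k).2.1 (en k).2.2 (orc ω)) : LL (orc ω) ∉ S2 (orc ω) := by
  rintro ⟨R, ⟨M, P, hMP⟩, r, hr⟩
  obtain ⟨i, hi⟩ := hen (M, P, r)
  have h := hF i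
  rw [hi] at h
  obtain ⟨x, hx⟩ := h
  rcases hx with ⟨hx, h1⟩ | ⟨hx, h1⟩
  · obtain ⟨y, hy, hz⟩ := (hr x).1 hx
    obtain ⟨z, hzl, hza⟩ := h1 y hy
    exact hza ((acc_iff hMP _).2 (hz z hzl))
  · obtain ⟨z, hz, hy⟩ := (hr x).2 hx
    obtain ⟨y, hyl, hya⟩ := h1 z hz
    exact hy y hyl ((acc_iff hMP _).1 hya)

theorem tgt (hLIM : LIMStmt) (hPRE : PREStmt) (hENU : ENUStmt) (hORW : ORWStmt) :
    TargetStmt := by
  obtain ⟨en, hen⟩ := hENU
  obtain ⟨ω, hω, hF⟩ := hLIM en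
  have hn : LL (orc ω) ∉ S2 (orc ω) := ll_not_s2 hen hF
  have hs : LL (orc ω) ∈ Sig (orc ω) 2 := ll_sig hPRE (orc ω)
  refine ⟨orc ω, np_sub hen hω hPRE hORW, fun h => hn (h hs), fun h => hn ?_⟩
  rw [← h]
  exact Set.mem_iUnion.mpr ⟨2, hs⟩

end Pool.ORB
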