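import Mathlib
import Pool.Agent.H16.ORB.C

open Classical Finset

namespace Pool.ORB

namespace UNBaux

variable {E Nd Sg W : Type} [Fintype E] [Fintype W] [Fintype Sg]

theorem q_pos (D : Dat E Nd Sg W) : (1 : ℝ) ≤ (D.q : ℝ) := by
  have h := D.hq
  have hT : 1 ≤ Tp D.p := by
    have := D.hp
    unfold Tp
    nlinarith
  have hH : 1 ≤ Hp D.p := by
    unfold Hp
    omega
  have h1 : 1 ≤ 16 * Hp D.p * (Tp D.p) ^ 2 := by
    have : 1 ≤ (Tp D.p) ^ 2 := Nat.one_le_pow _ _ hT
    nlinarith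
  exact_mod_cast h1.trans h

theorem card_biUnion_real {α β : Type} [DecidableEq β] (s : Finset α) (f : α → Finset β) :
    (((s.biUnion f).card : ℕ) : ℝ) ≤ ∑ x ∈ s, ((f x).card : ℝ) := by
  have h := Finset.card_biUnion_le (s := s) (t := f)
  exact_mod_cast h

/-- One cleaning term. -/
theorem clean_term (hINV : INVStmt) (D : Dat E Nd Sg W) (t n : ℕ) (s : St E Nd Sg)
    (hs : D.Inv s t) (g : FS E Nd) (hg : D.Heavy s g)
    (ih : ∀ m < n, ∀ s' : St E Nd Sg, D.Inv s' t →
      (((univ : Finset (E → W)).filter (fun a => D.Cont a s' t m)).card : ℝ) *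
        ((D.q : ℝ) ^ 4) ^ s'.ρ.card ≤
      ((D.q : ℝ) ^ 4) ^ Fintype.card E * D.C1 ^ t * (1 / (D.q : ℝ)) ^ m)
    (hn : 0 < n) (hC : 0 ≤ D.C1) :
    (((univ : Finset (E → W)).filter (fun a => Val D.V a g ∧
        D.Cont a (D.cleanSt s g) t (n - g.card))).card : ℝ) * ((D.q : ℝ) ^ 4) ^ s.ρ.card ≤
      ((D.q : ℝ) ^ 4) ^ Fintype.card E * D.C1 ^ t * (1 / (D.q : ℝ)) ^ n *
        (1 / (D.q : ℝ) ^ 3) ^ g.card := by
  have hq := q_pos D
  have hq0 : (0 : ℝ) < D.q := by linarith
  have hR : 0 ≤ ((D.q : ℝ) ^ 4) ^ Fintype.card E * D.C1 ^ t * (1 / (D.q : ℝ)) ^ n *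
        (1 / (D.q : ℝ) ^ 3) ^ g.card := by positivity
  by_cases hex : ∃ a0, Val D.V a0 g
  · obtain ⟨a0, ha0⟩ := hex
    obtain ⟨hi, -, hc⟩ := (hINV D).2.2 s t g a0 hs hg ha0
    have hg1 : 1 ≤ g.card := Finset.card_pos.mpr hg.1
    have h1 := ih (n - g.card) (by omega) (D.cleanSt s g) hi
    rw [hc] at h1
    have h2 : (((univ : Finset (E → W)).filter (fun a => Val D.V a g ∧
        D.Cont a (D.cleanSt s g) t (n - g.card))).card : ℝ) ≤
        (((univ : Finset (E → W)).filter (fun a =>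
          D.Cont a (D.cleanSt s g) t (n - g.card))).card : ℝ) := by
      have : ((univ : Finset (E → W)).filter (fun a => Val D.V a g ∧
        D.Cont a (D.cleanSt s g) t (n - g.card))) ⊆ ((univ : Finset (E → W)).filter (fun a =>
          D.Cont a (D.cleanSt s g) t (n - g.card))) := by
        intro a ha
        simp only [Finset.mem_filter, Finset.mem_univ, true_and] at ha ⊢
        exact ha.2
      exact_mod_cast Finset.card_le_card this
    have hK : (0 : ℝ) < ((D.q : ℝ) ^ 4) ^ g.card := by positivity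
    have h3 : (((univ : Finset (E → W)).filter (fun a => Val D.V a g ∧
        D.Cont a (D.cleanSt s g) t (n - g.card))).card : ℝ) *
          ((D.q : ℝ) ^ 4) ^ s.ρ.card * ((D.q : ℝ) ^ 4) ^ g.card ≤
        ((D.q : ℝ) ^ 4) ^ Fintype.card E * D.C1 ^ t * (1 / (D.q : ℝ)) ^ (n - g.card) := by
      refine le_trans ?_ h1
      rw [pow_add, mul_assoc]
      exact mul_le_mul_of_nonneg_right h2 (by positivity)
    have h4 : (1 / (D.q : ℝ)) ^ (n - g.card) * (1 / (D.q : ℝ)) ^ g.card ≤ (1 / (D.q : ℝ)) ^ n := by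
      rw [← pow_add]
      apply pow_le_pow_of_le_one (by positivity)
      · rw [div_le_one hq0]
        exact hq
      · omega
    have h5 : (1 / (D.q : ℝ) ^ 3) ^ g.card * (1 / (D.q : ℝ)) ^ g.card *
        ((D.q : ℝ) ^ 4) ^ g.card = 1 := by
      rw [← mul_pow, ← mul_pow]
      have : (1 / (D.q : ℝ) ^ 3) * (1 / (D.q : ℝ)) * (D.q : ℝ) ^ 4 = 1 := by
        field_simp
      rw [this, one_pow]
    refine le_of_mul_le_mul_right ?_ hK
    refine h3.trans ?_
    have h6 : ((D.q : ℝ) ^ 4) ^ Fintype.card E * D.C1 ^ t * (1 / (D.q : ℝ)) ^ (n - g.card) =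
        (((D.q : ℝ) ^ 4) ^ Fintype.card E * D.C1 ^ t) *
          ((1 / (D.q : ℝ)) ^ (n - g.card) * (1 / (D.q : ℝ)) ^ g.card) *
          ((1 / (D.q : ℝ) ^ 3) ^ g.card * ((D.q : ℝ) ^ 4) ^ g.card) := by
      have := h5
      calc ((D.q : ℝ) ^ 4) ^ Fintype.card E * D.C1 ^ t * (1 / (D.q : ℝ)) ^ (n - g.card)
          = ((D.q : ℝ) ^ 4) ^ Fintype.card E * D.C1 ^ t * (1 / (D.q : ℝ)) ^ (n - g.card) *
            ((1 / (D.q : ℝ) ^ 3) ^ g.card * (1 / (D.q : ℝ)) ^ g.card *
            ((D.q : ℝ) ^ 4) ^ g.card) := by rw [h5, mul_one]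
        _ = _ := by ring
    rw [h6]
    have h7 : (((D.q : ℝ) ^ 4) ^ Fintype.card E * D.C1 ^ t) *
          ((1 / (D.q : ℝ)) ^ (n - g.card) * (1 / (D.q : ℝ)) ^ g.card) ≤
          (((D.q : ℝ) ^ 4) ^ Fintype.card E * D.C1 ^ t) * (1 / (D.q : ℝ)) ^ n :=
      mul_le_mul_of_nonneg_left h4 (by positivity)
    calc _ ≤ (((D.q : ℝ) ^ 4) ^ Fintype.card E * D.C1 ^ t) * (1 / (D.q : ℝ)) ^ n *
          ((1 / (D.q : ℝ) ^ 3) ^ g.card * ((D.q : ℝ) ^ 4) ^ g.card) :=
          mul_le_mul_of_nonneg_right h7 (by positivity)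
      _ = _ := by ring
  · have : ((univ : Finset (E → W)).filter (fun a => Val D.V a g ∧
        D.Cont a (D.cleanSt s g) t (n - g.card))) = ∅ := by
      apply Finset.filter_eq_empty_iff.mpr
      intro a _ h
      exact hex ⟨a, h.1⟩
    rw [this]
    simpa using hR

/-- The case `n = 0`. -/
theorem zero_case (hCNT : CNTStmt) (D : Dat E Nd Sg W) (t : ℕ) (s : St E Nd Sg)
    (hs : D.Inv s t) (hC : 1 ≤ D.C1) :
    (((univ : Finset (E → W)).filter (fun a => D.Cont a s t 0)).card : ℝ) *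
        ((D.q : ℝ) ^ 4) ^ s.ρ.card ≤
      ((D.q : ℝ) ^ 4) ^ Fintype.card E * D.C1 ^ t * (1 / (D.q : ℝ)) ^ 0 := by
  have h1 := hCNT D s.ρ hs.fn
  have h2 : ((univ : Finset (E → W)).filter (fun a => D.Cont a s t 0)).card ≤
      ((univ : Finset (E → W)).filter (fun a => Val D.V a s.ρ)).card := by
    apply Finset.card_le_card
    intro a ha
    simp only [Finset.mem_filter, Finset.mem_univ, true_and] at ha ⊢
    cases ha <;> assumption
  have h3 : ((univ : Finset (E → W)).filter (fun a => D.Cont a s t 0)).card *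
      (D.q ^ 4) ^ s.ρ.card ≤ (D.q ^ 4) ^ Fintype.card E :=
    (Nat.mul_le_mul_right _ h2).trans h1
  have h4 : (((univ : Finset (E → W)).filter (fun a => D.Cont a s t 0)).card : ℝ) *
        ((D.q : ℝ) ^ 4) ^ s.ρ.card ≤ ((D.q : ℝ) ^ 4) ^ Fintype.card E := by
    exact_mod_cast h3
  refine h4.trans ?_
  rw [pow_zero, mul_one]
  have hq := q_pos D
  exact le_mul_of_one_le_right (by positivity) (one_le_pow₀ hC)

/-- The cleaning part. -/
theorem clean_part (hHSM : HSMStmt) (hINV : INVStmt) (D : Dat E Nd Sg W) (t n : ℕ)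
    (s : St E Nd Sg) (hs : D.Inv s t)
    (ih : ∀ m < n, ∀ s' : St E Nd Sg, D.Inv s' t →
      (((univ : Finset (E → W)).filter (fun a => D.Cont a s' t m)).card : ℝ) *
        ((D.q : ℝ) ^ 4) ^ s'.ρ.card ≤
      ((D.q : ℝ) ^ 4) ^ Fintype.card E * D.C1 ^ t * (1 / (D.q : ℝ)) ^ m)
    (hn : 0 < n) (hC : 0 ≤ D.C1) :
    (((univ : Finset (E → W)).filter (fun a => ∃ g, D.Heavy s g ∧ Val D.V a g ∧
        D.Cont a (D.cleanSt s g) t (n - g.card))).card : ℝ) * ((D.q : ℝ) ^ 4) ^ s.ρ.card ≤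
      1 / 2 * (((D.q : ℝ) ^ 4) ^ Fintype.card E * D.C1 ^ t * (1 / (D.q : ℝ)) ^ n) := by
  have hq := q_pos D
  have hT0 : 0 < Tp D.p := by
    have := D.hp
    unfold Tp
    nlinarith
  have hM : D.Psi s ≤ D.M := by
    have h := hs.psi
    have h1 : 0 ≤ (t : ℝ) * (D.M / (2 * (Tp D.p : ℝ))) := by
      unfold Dat.M
      positivity
    linarith
  obtain ⟨hv, hhv, hsum⟩ := hHSM D s hM (fun σ l hl => by
    have := hs.len σ l hl
    omega)
  have hsub : ((univ : Finset (E → W)).filter (fun a => ∃ g, D.Heavy s g ∧ Val D.V a g ∧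
        D.Cont a (D.cleanSt s g) t (n - g.card))) ⊆
      hv.biUnion (fun g => (univ : Finset (E → W)).filter (fun a => Val D.V a g ∧
        D.Cont a (D.cleanSt s g) t (n - g.card))) := by
    intro a ha
    simp only [Finset.mem_filter, Finset.mem_univ, true_and, Finset.mem_biUnion] at ha ⊢
    obtain ⟨g, hg1, hg2, hg3⟩ := ha
    exact ⟨g, (hhv g).2 hg1, hg2, hg3⟩
  have h1 : (((univ : Finset (E → W)).filter (fun a => ∃ g, D.Heavy s g ∧ Val D.V a g ∧
        D.Cont a (D.cleanSt s g) t (n - g.card))).card : ℝ) ≤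
      ∑ g ∈ hv, ((((univ : Finset (E → W)).filter (fun a => Val D.V a g ∧
        D.Cont a (D.cleanSt s g) t (n - g.card))).card : ℕ) : ℝ) := by
    refine le_trans ?_ (card_biUnion_real hv _)
    exact_mod_cast Finset.card_le_card hsub
  calc _ ≤ (∑ g ∈ hv, ((((univ : Finset (E → W)).filter (fun a => Val D.V a g ∧
        D.Cont a (D.cleanSt s g) t (n - g.card))).card : ℕ) : ℝ)) *
          ((D.q : ℝ) ^ 4) ^ s.ρ.card := mul_le_mul_of_nonneg_right h1 (by positivity)
    _ = ∑ g ∈ hv, ((((univ : Finset (E → W)).filter (fun a => Val D.V a g ∧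
        D.Cont a (D.cleanSt s g) t (n - g.card))).card : ℕ) : ℝ) *
          ((D.q : ℝ) ^ 4) ^ s.ρ.card := by rw [Finset.sum_mul]
    _ ≤ ∑ g ∈ hv, ((D.q : ℝ) ^ 4) ^ Fintype.card E * D.C1 ^ t * (1 / (D.q : ℝ)) ^ n *
        (1 / (D.q : ℝ) ^ 3) ^ g.card := by
        apply Finset.sum_le_sum
        intro g hg
        exact clean_term hINV D t n s hs g ((hhv g).1 hg) ih hn hC
    _ = ((D.q : ℝ) ^ 4) ^ Fintype.card E * D.C1 ^ t * (1 / (D.q : ℝ)) ^ n *
        ∑ g ∈ hv, (1 / (D.q : ℝ) ^ 3) ^ g.card := by rw [Finset.mul_sum]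
    _ ≤ ((D.q : ℝ) ^ 4) ^ Fintype.card E * D.C1 ^ t * (1 / (D.q : ℝ)) ^ n * (1 / 2) :=
        mul_le_mul_of_nonneg_left hsum (by positivity)
    _ = _ := by ring

theorem C1_ge (D : Dat E Nd Sg W) : 1 ≤ D.C1 := by
  unfold Dat.C1
  have h1 : (1 : ℝ) ≤ 2 ^ D.p := one_le_pow₀ (by norm_num)
  have h2 : (1 : ℝ) ≤ (2 * (D.p : ℝ)) ^ Hp D.p := by
    apply one_le_pow₀
    have : (1 : ℝ) ≤ D.p := by exact_mod_cast D.hp
    linarith
  nlinarith [mul_le_mul h1 h2 zero_le_one (by positivity : (0 : ℝ) ≤ 2 ^ D.p)]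

end UNBaux

open UNBaux in
theorem unb (hCNT : CNTStmt) (hHSM : HSMStmt) (hMMV : MMVStmt) (hINV : INVStmt) : UNBStmt := by
  intro E Nd Sg W _ _ _ D t
  have hC1 := C1_ge D
  have hC : 0 ≤ D.C1 := by linarith
  have hq := q_pos D
  induction t with
  | zero =>
    intro n
    induction n using Nat.strong_induction_on with
    | _ n ihn =>
      intro s hs
      rcases Nat.eq_zero_or_pos n with rfl | hn
      · exact zero_case hCNT D 0 s hs hC1
      · have h1 := clean_part hHSM hINV D 0 n s hs ihn hn hC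
        have h2 : (((univ : Finset (E → W)).filter (fun a => D.Cont a s 0 n)).card : ℝ) ≤
            (((univ : Finset (E → W)).filter (fun a => ∃ g, D.Heavy s g ∧ Val D.V a g ∧
              D.Cont a (D.cleanSt s g) 0 (n - g.card))).card : ℝ) := by
          have : ((univ : Finset (E → W)).filter (fun a => D.Cont a s 0 n)) ⊆
              ((univ : Finset (E → W)).filter (fun a => ∃ g, D.Heavy s g ∧ Val D.V a g ∧
              D.Cont a (D.cleanSt s g) 0 (n - g.card))) := by
            intro a ha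
            simp only [Finset.mem_filter, Finset.mem_univ, true_and] at ha ⊢
            cases ha with
            | zero _ _ _ => omega
            | clean _ _ _ g h3 h4 h5 h6 => exact ⟨g, h4, h5, h6⟩
          exact_mod_cast Finset.card_le_card this
        refine le_trans (mul_le_mul_of_nonneg_right h2 (by positivity)) (h1.trans ?_)
        have : 0 ≤ ((D.q : ℝ) ^ 4) ^ Fintype.card E * D.C1 ^ 0 * (1 / (D.q : ℝ)) ^ n := by
          positivity
        linarith
  | succ t iht =>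
    intro n
    induction n using Nat.strong_induction_on with
    | _ n ihn =>
      intro s hs
      rcases Nat.eq_zero_or_pos n with rfl | hn
      · exact zero_case hCNT D (t + 1) s hs hC1
      · have h1 := clean_part hHSM hINV D (t + 1) n s hs ihn hn hC
        obtain ⟨mv, hmv, hmc⟩ := hMMV D s (t + 1) hs
        set A : Finset (E → W) := (univ : Finset (E → W)).filter (fun a => ∃ g, D.Heavy s g ∧
          Val D.V a g ∧ D.Cont a (D.cleanSt s g) (t + 1) (n - g.card)) with hA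
        have hsub : ((univ : Finset (E → W)).filter (fun a => D.Cont a s (t + 1) n)) ⊆
            A ∪ mv.biUnion (fun x => (univ : Finset (E → W)).filter (fun a =>
              D.Cont a (D.mainSt s x.1 x.2) t n)) := by
          intro a ha
          simp only [Finset.mem_filter, Finset.mem_univ, true_and, Finset.mem_union,
            Finset.mem_biUnion, hA] at ha ⊢
          cases ha with
          | zero _ _ _ => omega
          | main _ _ _ σ l h3 h4 h5 => exact Or.inr ⟨(σ, l), (hmv (σ, l)).2 h4, h5⟩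
          | clean _ _ _ g h3 h4 h5 h6 => exact Or.inl ⟨g, h4, h5, h6⟩
        have h2 : (((univ : Finset (E → W)).filter (fun a => D.Cont a s (t + 1) n)).card : ℝ) ≤
            (A.card : ℝ) + ∑ x ∈ mv, ((((univ : Finset (E → W)).filter (fun a =>
              D.Cont a (D.mainSt s x.1 x.2) t n)).card : ℕ) : ℝ) := by
          have h3 := Finset.card_le_card hsub
          have h4 := h3.trans (Finset.card_union_le _ _)
          have h5 : (((univ : Finset (E → W)).filter
              (fun a => D.Cont a s (t + 1) n)).card : ℝ) ≤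
              (A.card : ℝ) + ((mv.biUnion (fun x => (univ : Finset (E → W)).filter (fun a =>
              D.Cont a (D.mainSt s x.1 x.2) t n))).card : ℝ) := by exact_mod_cast h4
          have h6 := card_biUnion_real mv (fun x => (univ : Finset (E → W)).filter (fun a =>
              D.Cont a (D.mainSt s x.1 x.2) t n))
          linarith
        have h7 : ∀ x ∈ mv, ((((univ : Finset (E → W)).filter (fun a =>
              D.Cont a (D.mainSt s x.1 x.2) t n)).card : ℕ) : ℝ) *
              ((D.q : ℝ) ^ 4) ^ s.ρ.card ≤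
              ((D.q : ℝ) ^ 4) ^ Fintype.card E * D.C1 ^ t * (1 / (D.q : ℝ)) ^ n := by
          intro x hx
          have h8 := iht n (D.mainSt s x.1 x.2) ((hINV D).2.1 s t x.1 x.2 hs ((hmv x).1 hx))
          refine le_trans (mul_le_mul_of_nonneg_left ?_ (by positivity)) h8
          apply pow_le_pow_right₀ (one_le_pow₀ hq)
          exact Finset.card_le_card Finset.subset_union_left
        have h9 : (∑ x ∈ mv, ((((univ : Finset (E → W)).filter (fun a =>
              D.Cont a (D.mainSt s x.1 x.2) t n)).card : ℕ) : ℝ)) *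
              ((D.q : ℝ) ^ 4) ^ s.ρ.card ≤ (mv.card : ℝ) *
              (((D.q : ℝ) ^ 4) ^ Fintype.card E * D.C1 ^ t * (1 / (D.q : ℝ)) ^ n) := by
          rw [Finset.sum_mul, ← nsmul_eq_mul, ← Finset.sum_const]
          exact Finset.sum_le_sum h7
        have h10 : (mv.card : ℝ) *
              (((D.q : ℝ) ^ 4) ^ Fintype.card E * D.C1 ^ t * (1 / (D.q : ℝ)) ^ n) ≤
              1 / 2 * (((D.q : ℝ) ^ 4) ^ Fintype.card E * D.C1 ^ (t + 1) *
                (1 / (D.q : ℝ)) ^ n) := by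
          have h11 : (mv.card : ℝ) ≤ D.C1 / 2 := by linarith
          calc _ ≤ D.C1 / 2 *
              (((D.q : ℝ) ^ 4) ^ Fintype.card E * D.C1 ^ t * (1 / (D.q : ℝ)) ^ n) :=
                mul_le_mul_of_nonneg_right h11 (by positivity)
            _ = _ := by ring
        have h12 := mul_le_mul_of_nonneg_right h2
          (by positivity : (0 : ℝ) ≤ ((D.q : ℝ) ^ 4) ^ s.ρ.card)
        rw [add_mul] at h12
        linarith

end Pool.ORB
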