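import Mathlib
import Pool.Agent.H16.ORB.Defs
import Pool.Agent.H16.ORB.W
import Pool.Agent.H16.ORB.TGT

/-!
# MP_5182ad_lc: unambiguous version of the target
-/

open Classical Polynomial Finset

namespace Pool.ORB

theorem up_sub {en : Enu} {ω : Wo} (hen : Function.Surjective en) (hω : Legal en ω)
    (hPRE : PREStmt) (hORW : ORWStmt) : NP (orc ω) ⊆ Adv (UP (orc ω) ∩ coUP (orc ω)) := by
  rintro L ⟨R, ⟨M, P, hMP⟩, q, hq⟩
  obtain ⟨i, hi⟩ := hen (M, P, q)
  have hz : ∀ (z w : List Bool) (b : Bool), w.length = z.length →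
      (pre (i + 1) b ++ pair z w ∈ orc ω ↔ ω (i + 1, z) = some (w, b)) :=
    fun z w b h => hORW.1 ω i z w b h
  have hu : ∀ (b : Bool) (x w w' : List Bool), w.length = (X : ℕ[X]).eval x.length →
      w'.length = (X : ℕ[X]).eval x.length →
      pair x w ∈ {v | pre (i + 1) b ++ v ∈ orc ω} →
      pair x w' ∈ {v | pre (i + 1) b ++ v ∈ orc ω} → w = w' := by
    intro b x w w' hw hw' h1 h2
    rw [Polynomial.eval_X] at hw hw'
    have h3 := (hz x w b hw).1 h1
    have h4 := (hz x w' b hw').1 h2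
    rw [h3] at h4
    simpa using h4
  refine ⟨{z | ∃ w, ω (i + 1, z) = some (w, true)}, ⟨?_, ?_⟩, al en i,
    fun n => Classical.choose (hω.leg i n), ?_, ?_⟩
  · refine ⟨{v | pre (i + 1) true ++ v ∈ orc ω}, (hPRE (orc ω) (pre (i + 1) true)).1, X,
      hu true, ?_⟩
    intro x
    constructor
    · rintro ⟨w, hw⟩
      have hl := hω.wf _ _ _ hw
      exact ⟨w, by simpa using hl, (hz x w true hl).2 hw⟩
    · rintro ⟨w, hl, hw⟩
      have hl' : w.length = x.length := by simpa using hl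
      exact ⟨w, (hz x w true hl').1 hw⟩
  · show {z | ∃ w, ω (i + 1, z) = some (w, true)}ᶜ ∈ UP (orc ω)
    refine ⟨{v | pre (i + 1) false ++ v ∈ orc ω}, (hPRE (orc ω) (pre (i + 1) false)).1, X,
      hu false, ?_⟩
    intro x
    constructor
    · intro hx
      have hx' : ¬ ∃ w, ω (i + 1, x) = some (w, true) := hx
      obtain ⟨⟨w, b⟩, hwb⟩ := Option.ne_none_iff_exists'.mp (hω.tot i x)
      have hb : b = false := by
        cases b
        · rfl
        · exact absurd ⟨w, hwb⟩ hx'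
      subst hb
      have hl := hω.wf _ _ _ hwb
      exact ⟨w, by simpa using hl, (hz x w false hl).2 hwb⟩
    · rintro ⟨w, hl, hw⟩
      have hl' : w.length = x.length := by simpa using hl
      have h1 := (hz x w false hl').1 hw
      rintro ⟨w', hw'⟩
      rw [h1] at hw'
      simp at hw'
  · intro n
    exact (Classical.choose_spec (hω.leg i n)).1.le
  · intro x
    have h1 := (Classical.choose_spec (hω.leg i x.length)).2 x rfl
    have h2 : Tr en i (orc ω) x ↔ x ∈ L := by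
      unfold Tr
      rw [hi, hq x]
      constructor
      · rintro ⟨w, hl, hw⟩
        exact ⟨w, hl, (acc_iff hMP _).1 hw⟩
      · rintro ⟨w, hl, hw⟩
        exact ⟨w, hl, (acc_iff hMP _).2 hw⟩
    exact h2.symm.trans h1.symm

/-- The unambiguous form of the target. -/
def UpTargetStmt : Prop :=
  ∃ O : Set (List Bool), NP O ⊆ Adv (UP O ∩ coUP O) ∧ NP O ⊆ Adv (NP O ∩ coNP O) ∧
    ¬ (Sig O 2 ⊆ S2 O) ∧ PH O ≠ S2 O

theorem up_tgt (hLIM : LIMStmt) (hPRE : PREStmt) (hENU : ENUStmt) (hORW : ORWStmt) :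
    UpTargetStmt := by
  obtain ⟨en, hen⟩ := hENU
  obtain ⟨ω, hω, hF⟩ := hLIM en
  have hn : LL (orc ω) ∉ S2 (orc ω) := ll_not_s2 hen hF
  have hs : LL (orc ω) ∈ Sig (orc ω) 2 := ll_sig hPRE (orc ω)
  refine ⟨orc ω, up_sub hen hω hPRE hORW, np_sub hen hω hPRE hORW, fun h => hn (h hs),
    fun h => hn ?_⟩
  rw [← h]
  exact Set.mem_iUnion.mpr ⟨2, hs⟩

end Pool.ORB
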