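import Mathlib
import Pool.Agent.H16.ORB.Defs
import Pool.Agent.H16.ORB.C
import Pool.Agent.H16.ORB.W
import Pool.Agent.H16.ORB.UNB
import Pool.Agent.H16.ORB.TGT
import Pool.Agent.H16.ORB.Up
import Pool.Agent.H2.ORB.EXT
import Pool.Agent.H2.ORB.STG
import Pool.Agent.H23.ORB.PRE
import Pool.Agent.H31.ORB.KID
import Pool.Agent.H31.ORB.ONE
import Pool.Agent.H34.ORB.CL1
import Pool.Agent.H37.ORB.CHL
import Pool.Agent.H37.ORB.CNT
import Pool.Agent.H37.ORB.LEN
import Pool.Agent.H37.ORB.NUM
import Pool.Agent.H40.ORB.HSM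
import Pool.Agent.H49.ORB.FIN
import Pool.Agent.H49.ORB.QRY
import Pool.Agent.H49.ORB.STR
import Pool.Agent.H50.ORB.INV
import Pool.Agent.H50.ORB.PRC
import Pool.Agent.H51.ORB.COR
import Pool.Agent.H53.ORB.GOD
import Pool.Agent.H53.ORB.LOW
import Pool.Agent.H55.ORB.BAS
import Pool.Agent.H55.ORB.END
import Pool.Agent.H55.ORB.GRW
import Pool.Agent.H55.ORB.ORW
import Pool.Agent.H58.ORB.ADD
import Pool.Agent.H59.ORB.CLN
import Pool.Agent.H59.ORB.CVS
import Pool.Agent.H59.ORB.LIM
import Pool.Agent.H59.ORB.MMV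
import Pool.Agent.H64.ORB.ACC
import Pool.Agent.H64.ORB.ENU
import Pool.Agent.H64.ORB.FIX
import Pool.Agent.H64.ORB.LOC
import Pool.Agent.H76.ORB.FAC
import Pool.Agent.H76.ORB.NDL
import Pool.Agent.H76.ORB.PHI

/-!
# MP_5182ad_lc, oracle barrier: assembly
-/

namespace Pool.ORB

theorem all_cln : CLNStmt := cln (cl1 one)

theorem all_inv : INVStmt := inv (add one) len kid (chl kid) all_cln grw

theorem all_god : GODStmt := god (unb cnt hsm (mmv len) all_inv) all_inv

theorem all_prc : PRCStmt := prc len all_inv (cvs kid) (phi kid) low end_row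

theorem all_core : CoreStmt := cor all_god all_prc all_inv

theorem all_orw : ORWStmt := orw str_row

theorem all_acc : ACCStmt := acc loc str_row

theorem all_fin : FINStmt := fin str_row

theorem all_fac : FACStmt := fac_thm str_row

theorem all_ext : EXTStmt := ext fix str_row all_orw all_acc all_fin ndl_thm all_fac

theorem all_stg : STGStmt :=
  stg all_core str_row all_orw all_acc num all_fin ndl_thm all_fac (qry loc str_row) all_ext

theorem all_lim : LIMStmt := lim all_stg (bas fix all_orw all_acc str_row) all_orw all_acc str_row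

theorem all_target : TargetStmt := tgt all_lim pre_thm enu all_orw

theorem all_up : UpTargetStmt := up_tgt all_lim pre_thm enu all_orw

end Pool.ORB
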